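import Pool.Agent.U38.AK.Loc
import Pool.Agent.U68.AR.Inf

/-!
# Extensions by Artin groups of type FC, with given labels, and without triangles
-/

set_option autoImplicit false

namespace Pool.Agent.U38.AK

open Pool.Agent.Y110.FJ
open Pool.Agent.Helper741 (alt map_alt alt_succ alt_zero)
open Pool.Agent.K7.H87.FJ6
open scoped MatrixGroups

variable {C : ∀ (G : Type) [Group G], Prop}

/-- type FC: every finite set of generators with pairwise finite labels generates a finite Coxeter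
group -/
def TypeFC {B : Type} (M : CoxeterMatrix B) : Prop :=
  ∀ A : Set B, A.Finite → (∀ x ∈ A, ∀ y ∈ A, M x y ≠ 0) →
    Finite (pull M (Subtype.val : A → B) Subtype.val_injective).Group

/-- the cliques of `M'` come from cliques of `M` -/
def Loc {T B : Type} (M' : CoxeterMatrix T) (M : CoxeterMatrix B) : Prop :=
  ∀ A : Set T, (∀ x ∈ A, ∀ y ∈ A, M' x y ≠ 0) →
    ∃ f : T → B, ∀ x ∈ A, ∀ y ∈ A, M (f x) (f y) = M' x y

theorem Loc.fc {T B : Type} {M' : CoxeterMatrix T} {M : CoxeterMatrix B} (h : Loc M' M)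
    (hM : TypeFC M) : TypeFC M' := by
  intro A hA hcl
  obtain ⟨f, hf⟩ := h A hcl
  have hfin := hM (f '' A) (hA.image f) (by
    rintro _ ⟨x, hx, rfl⟩ _ ⟨y, hy, rfl⟩
    rw [hf x hx y hy]
    exact hcl x hx y hy)
  refine Finite.of_injective _ (Pool.Agent.N77.CX.cmap_injective
    (pull M' (Subtype.val : A → T) Subtype.val_injective).toCoxeterSystem
    (pull M (Subtype.val : f '' A → B) Subtype.val_injective).toCoxeterSystem
    (fun x => ⟨f x, ⟨x, x.2, rfl⟩⟩) (fun x y => hf x x.2 y y.2) ?_)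
  intro x y hxy
  by_contra hne
  have h1 : f x = f y := congrArg Subtype.val hxy
  have h2 := hf x x.2 y y.2
  rw [h1, M.diagonal] at h2
  exact M'.off_diagonal x y (fun h3 => hne (Subtype.ext h3)) h2.symm

theorem Loc.two {T B : Type} {M' : CoxeterMatrix T} {M : CoxeterMatrix B} (h : Loc M' M)
    {x y : T} (hxy : x ≠ y) (h0 : M' x y ≠ 0) : ∃ a b : B, a ≠ b ∧ M a b = M' x y := by
  have h0' : M' y x ≠ 0 := by rwa [M'.symmetric]
  obtain ⟨f, hf⟩ := h {x, y} (by
    rintro a (rfl | rfl) b (rfl | rfl)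
    · rw [M'.diagonal]
      exact one_ne_zero
    · exact h0
    · exact h0'
    · rw [M'.diagonal]
      exact one_ne_zero)
  have h1 := hf x (Or.inl rfl) y (Or.inr rfl)
  refine ⟨f x, f y, fun h2 => ?_, h1⟩
  rw [h2, M.diagonal] at h1
  exact M'.off_diagonal x y hxy h1.symm

theorem Loc.tri {T B : Type} {M' : CoxeterMatrix T} {M : CoxeterMatrix B} (h : Loc M' M)
    (hM : ∀ a b c : B, a ≠ b → b ≠ c → a ≠ c → M a b ≠ 0 → M b c ≠ 0 → M a c = 0)
    (x y z : T) (hxy : x ≠ y) (hyz : y ≠ z) (hxz : x ≠ z) (h1 : M' x y ≠ 0) (h2 : M' y z ≠ 0) :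
    M' x z = 0 := by
  by_contra h3
  have h1' : M' y x ≠ 0 := by rwa [M'.symmetric]
  have h2' : M' z y ≠ 0 := by rwa [M'.symmetric]
  have h3' : M' z x ≠ 0 := by rwa [M'.symmetric]
  have h4 : ∀ t, M' t t ≠ 0 := fun t => by
    rw [M'.diagonal]
    exact one_ne_zero
  obtain ⟨f, hf⟩ := h {x, y, z} (by
    rintro a (rfl | rfl | rfl) b (rfl | rfl | rfl)
    · exact h4 _
    · exact h1
    · exact h3
    · exact h1'
    · exact h4 _
    · exact h2
    · exact h3'
    · exact h2'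
    · exact h4 _)
  have hx : x ∈ ({x, y, z} : Set T) := Or.inl rfl
  have hy : y ∈ ({x, y, z} : Set T) := Or.inr (Or.inl rfl)
  have hz : z ∈ ({x, y, z} : Set T) := Or.inr (Or.inr rfl)
  have hne : ∀ a b : T, a ∈ ({x, y, z} : Set T) → b ∈ ({x, y, z} : Set T) → a ≠ b → f a ≠ f b := by
    intro a b ha hb hab h5
    have h6 := hf a ha b hb
    rw [h5, M.diagonal] at h6
    exact M'.off_diagonal a b hab h6.symm
  have h5 := hM (f x) (f y) (f z) (hne _ _ hx hy hxy) (hne _ _ hy hz hyz) (hne _ _ hx hz hxz)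
    (by rw [hf x hx y hy]; exact h1) (by rw [hf y hy z hz]; exact h2)
  rw [hf x hx z hz] at h5
  exact h3 h5

section main

variable {G B : Type} [Group G] {N : Subgroup G} {M : CoxeterMatrix B} (e : Sh M 0 ≃* N)

/-- **extensions by Artin groups** -/
theorem artin_main (hC : ClosedE C)
    (hK : ∀ (T : Type) [Finite T] (M' : CoxeterMatrix T), Loc M' M → C (Sh M' 0))
    [N.Normal] (hloc : LocStd e) (hQ : C (G ⧸ N)) : C G := by
  refine sh_main e hC (adm_zero M) (fun T _ M' p' _ hcl => ?_) hloc hQ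
  have hp : p' = 0 := by
    funext x
    obtain ⟨f, -, h2⟩ := hcl {x} (by
      rintro a rfl b rfl
      rw [M'.diagonal]
      exact one_ne_zero)
    exact (h2 x rfl).symm
  subst hp
  refine hK T M' fun A hA => ?_
  obtain ⟨f, h1, -⟩ := hcl A hA
  exact ⟨f, h1⟩

theorem fc_main (hC : ClosedE C)
    (hFC : ∀ (T : Type) [Finite T] (M' : CoxeterMatrix T), TypeFC M' → C (Sh M' 0))
    (hM : TypeFC M) [N.Normal] (hloc : LocStd e) (hQ : C (G ⧸ N)) : C G :=
  artin_main e hC (fun T _ M' h => hFC T M' (h.fc hM)) hloc hQ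

theorem lab_main (hC : ClosedE C) (L : Set ℕ)
    (hL : ∀ (T : Type) [Finite T] (M' : CoxeterMatrix T),
      (∀ x y, x ≠ y → M' x y ≠ 0 → M' x y ∈ L) → C (Sh M' 0))
    (hM : ∀ x y, x ≠ y → M x y ≠ 0 → M x y ∈ L) [N.Normal] (hloc : LocStd e) (hQ : C (G ⧸ N)) :
    C G :=
  artin_main e hC (fun T _ M' h => hL T M' fun x y hxy h0 => by
    obtain ⟨a, b, hab, h1⟩ := h.two hxy h0
    rw [← h1] at h0 ⊢
    exact hM a b hab h0) hloc hQ

theorem alt_eq' {G : Type*} [Monoid G] (m : ℕ) : ∀ x y : G,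
    Pool.Agent.U68.AR.alt x y m = alt x y m := by
  induction m with
  | zero => intro x y; rw [alt_zero, Pool.Agent.U68.AR.alt_zero]
  | succ m ih => intro x y; rw [alt_succ, Pool.Agent.U68.AR.alt_succ, ih]

/-- the comparison with the other definition of the Artin group -/
theorem cmp_inj {T : Type} (M : CoxeterMatrix T) :
    ∃ f : Sh M 0 →* Pool.Agent.U68.AR.Artin (fun i j => M i j), Function.Injective f := by
  have hrel : ∀ i j, alt (PresentedGroup.of i : Pool.Agent.U68.AR.Artin (fun i j => M i j))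
      (PresentedGroup.of j) (M i j) = alt (PresentedGroup.of j) (PresentedGroup.of i) (M i j) := by
    intro i j
    have h1 : PresentedGroup.mk (Pool.Agent.U68.AR.ArtinRel (fun i j => M i j))
        (Pool.Agent.U68.AR.alt (FreeGroup.of i) (FreeGroup.of j) (M i j) *
        (Pool.Agent.U68.AR.alt (FreeGroup.of j) (FreeGroup.of i) (M i j))⁻¹) = 1 :=
      PresentedGroup.one_of_mem ⟨i, j, rfl⟩
    rw [map_mul, map_inv, mul_inv_eq_one, alt_eq', alt_eq', map_alt, map_alt] at h1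
    exact h1
  obtain ⟨f, hf⟩ : ∃ f : Sh M 0 →* Pool.Agent.U68.AR.Artin (fun i j => M i j),
      ∀ i, f (Sh.gen M 0 i) = PresentedGroup.of i :=
    ⟨Sh.lift _ hrel (fun i => pow_zero _), fun i => Sh.lift_gen _ _ _ _⟩
  obtain ⟨g, hg⟩ : ∃ g : Pool.Agent.U68.AR.Artin (fun i j => M i j) →* Sh M 0,
      ∀ i, g (PresentedGroup.of i) = Sh.gen M 0 i := by
    refine ⟨PresentedGroup.toGroup (f := fun i => Sh.gen M 0 i) ?_, fun i => PresentedGroup.toGroup.of _⟩
    rintro _ ⟨i, j, rfl⟩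
    rw [map_mul, map_inv, alt_eq', alt_eq', map_alt, map_alt, FreeGroup.lift_apply_of,
      FreeGroup.lift_apply_of]
    exact mul_inv_eq_one.2 (Sh.rel i j)
  refine ⟨f, Function.LeftInverse.injective (g := g) fun x => ?_⟩
  have h : g.comp f = MonoidHom.id _ := Sh.hom_ext fun i => by
    rw [MonoidHom.comp_apply, hf, hg]
    rfl
  exact DFunLike.congr_fun h x

theorem tri_mem (hC : ClosedE C) (hGL : ∀ n : ℕ, C (GL (Fin n) ℚ)) {T : Type}
    (M : CoxeterMatrix T)
    (hM : ∀ a b c : T, a ≠ b → b ≠ c → a ≠ c → M a b ≠ 0 → M b c ≠ 0 → M a c = 0) :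
    C (Sh M 0) := by
  obtain ⟨f, hf⟩ := cmp_inj M
  refine hC.base.of_injective _ _ f hf ?_
  refine Pool.Agent.U68.AR.thin_artin hC hGL (M := fun i j => M i j) (fun s t => M.symmetric s t)
    (fun s => M.diagonal s) (fun s t h => M.off_diagonal s t h) ?_ ?_
  · rintro A - ⟨v, hv⟩
    refine ⟨v, hv, Or.inr fun s _ t _ hs ht hst h1 h2 => ?_⟩
    exact hM s v t hs (Ne.symm ht) hst (by rwa [M.symmetric]) h2
  · intro a b c hab hbc hac h1 h2 h3
    exact absurd (hM a b c hab hbc hac h1 h2) h3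

/-- **extensions by Artin groups without triangles** -/
theorem tri_main (hC : ClosedE C) (hGL : ∀ n : ℕ, C (GL (Fin n) ℚ))
    (hM : ∀ a b c : B, a ≠ b → b ≠ c → a ≠ c → M a b ≠ 0 → M b c ≠ 0 → M a c = 0)
    [N.Normal] (hloc : LocStd e) (hQ : C (G ⧸ N)) : C G :=
  artin_main e hC (fun _ _ M' h => tri_mem hC hGL M' (h.tri hM)) hloc hQ

end main

end Pool.Agent.U38.AK
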