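import Pool.Agent.U38.AK.Line

/-!
# Semidirect products with permutations of the generators
-/

set_option autoImplicit false

namespace Pool.Agent.U38.AK

open Pool.Agent.Y110.FJ
open Pool.Agent.K7.H87.FJ6

variable {C : ∀ (G : Type) [Group G], Prop}

section semi

variable {B Q : Type} [Group Q] {M : CoxeterMatrix B} {p : B → ℕ} (φ : Q →* MulAut (Sh M p))

/-- the group is isomorphic to the kernel of the projection -/
noncomputable def inlE : Sh M p ≃* (SemidirectProduct.inl (φ := φ)).range :=
  MonoidHom.ofInjective SemidirectProduct.inl_injective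

instance inl_normal : (SemidirectProduct.inl (φ := φ)).range.Normal := by
  rw [SemidirectProduct.range_inl_eq_ker_rightHom]
  infer_instance

theorem semi_loc (h : ∀ q b, ∃ b', φ q (Sh.gen M p b) = Sh.gen M p b') : LocStd (inlE φ) := by
  intro g F _
  refine ⟨SemidirectProduct.inl g.left, ⟨_, rfl⟩, fun b _ => ?_⟩
  obtain ⟨b', hb'⟩ := h g.right b
  refine ⟨b', ?_⟩
  show g * SemidirectProduct.inl (Sh.gen M p b) * g⁻¹ = SemidirectProduct.inl g.left *
    SemidirectProduct.inl (Sh.gen M p b') * (SemidirectProduct.inl g.left)⁻¹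
  rw [← hb', SemidirectProduct.inl_aut, map_inv]
  conv_lhs => rw [← SemidirectProduct.inl_left_mul_inr_right g]
  group

theorem semi_quot (hC : ClosedE C) (hQ : C Q) :
    C ((Sh M p ⋊[φ] Q) ⧸ (SemidirectProduct.inl (φ := φ)).range) := by
  have h := SemidirectProduct.range_inl_eq_ker_rightHom (φ := φ)
  have e1 := QuotientGroup.quotientMulEquivOfEq h
  have e2 := QuotientGroup.quotientKerEquivOfSurjective
    (SemidirectProduct.rightHom (φ := φ)) SemidirectProduct.rightHom_surjective
  exact hC.base.of_injective _ _ (e1.trans e2).toMonoidHom (MulEquiv.injective _) hQ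

end semi

/-- the translation of the path -/
def shl : MulAut (Sh lineM 0) :=
  shaut (Equiv.addRight (1 : ℤ)) (fun x y => by
    simp only [lineM_apply, Equiv.coe_addRight]
    congr 1
    · exact propext (by omega)
    · congr 1
      exact propext (by omega)) (fun _ => rfl)

theorem shl_gen (i : ℤ) : shl (Sh.gen lineM 0 i) = Sh.gen lineM 0 (i + 1) := shaut_gen _ _ _ i

theorem shl_pow (k : ℕ) (i : ℤ) : (shl ^ k) (Sh.gen lineM 0 i) = Sh.gen lineM 0 (i + k) := by
  induction k generalizing i with
  | zero => simp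
  | succ k ih =>
    rw [pow_succ, MulAut.mul_apply, shl_gen, ih]
    congr 1
    push_cast
    ring

theorem shl_zpow (k : ℤ) (i : ℤ) : (shl ^ k) (Sh.gen lineM 0 i) = Sh.gen lineM 0 (i + k) := by
  rcases le_total 0 k with h | h
  · obtain ⟨n, rfl⟩ := Int.eq_ofNat_of_zero_le h
    rw [zpow_natCast]
    exact shl_pow n i
  · obtain ⟨n, hn⟩ := Int.eq_ofNat_of_zero_le (neg_nonneg.2 h)
    have hk : k = -(n : ℤ) := by omega
    rw [hk, zpow_neg, zpow_natCast]
    have h1 := shl_pow n (i + -(n : ℤ))
    rw [show i + -(n : ℤ) + n = i by ring] at h1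
    rw [← h1]
    exact MulAut.inv_apply_self _ (shl ^ n) _

/-- **the braided Houghton group with two ends** -/
theorem bh2 (hC : ClosedE C) (hB : ∀ n, C (Sh (CoxeterMatrix.A n) 0)) :
    C (Sh lineM 0 ⋊[zpowersHom (MulAut (Sh lineM 0)) shl] Multiplicative ℤ) := by
  refine braid_main (inlE (zpowersHom (MulAut (Sh lineM 0)) shl)) hC hB
    (semi_loc _ fun q b => ⟨b + Multiplicative.toAdd q, ?_⟩) (semi_quot _ hC hC.base.int)
  rw [zpowersHom_apply]
  exact shl_zpow _ b
end Pool.Agent.U38.AK
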