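import Pool.Agent.U38.AK.Evn
import Pool.Agent.U38.AK.Semi

/-!
# Names for the statement
-/

set_option autoImplicit false

namespace Pool.Agent.U38.AK

open Pool.Agent.Y110.FJ
open Pool.Agent.K7.H87.FJ6
open scoped MatrixGroups

/-- every group `G` with a normal subgroup isomorphic to the Shephard group of `(M, p)`, on which the
conjugation is locally standard, and with the quotient in `C`, is in `C` -/
def ExtIn (C : ∀ (G : Type) [Group G], Prop) {B : Type} (M : CoxeterMatrix B) (p : B → ℕ) : Prop :=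
  ∀ (G : Type) [Group G] (N : Subgroup G) [N.Normal] (e : Sh M p ≃* N),
    LocStd e → C (G ⧸ N) → C G

/-- the groups of the finite cliques of `(M, p)` are in `C` -/
def CliquesIn (C : ∀ (G : Type) [Group G], Prop) {B : Type} (M : CoxeterMatrix B) (p : B → ℕ) :
    Prop :=
  ∀ A : Set B, A.Finite → (∀ x ∈ A, ∀ y ∈ A, M x y ≠ 0) →
    C (Sh (pull M (Subtype.val : A → B) Subtype.val_injective) (p ∘ Subtype.val))

/-- among three elements with pairwise finite labels two labels are `2`, and `p x = 0` or `p y = 0` or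
`p x = p y = 2` if `M x y > 2` -/
def FCP {B : Type} (M : CoxeterMatrix B) (p : B → ℕ) : Prop :=
  (∀ x y z, x ≠ y → y ≠ z → x ≠ z → M x y ≠ 0 → M y z ≠ 0 → M x z ≠ 0 → M x y = 2 ∨ M y z = 2) ∧
  ∀ x y, x ≠ y → 2 < M x y → p x = 0 ∨ p y = 0 ∨ p x = 2 ∧ p y = 2

/-- the finite labels of different elements are in `L` -/
def LabelsIn {B : Type} (M : CoxeterMatrix B) (L : Set ℕ) : Prop :=
  ∀ x y, x ≠ y → M x y ≠ 0 → M x y ∈ L

/-- there are no triangles with finite labels -/
def NoTri {B : Type} (M : CoxeterMatrix B) : Prop :=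
  ∀ a b c : B, a ≠ b → b ≠ c → a ≠ c → M a b ≠ 0 → M b c ≠ 0 → M a c = 0

/-- `C` contains the semidirect products of the Shephard group of `(M, p)` with the groups in `C` which act
by permutations of the standard generators -/
def SemiIn (C : ∀ (G : Type) [Group G], Prop) {B : Type} (M : CoxeterMatrix B) (p : B → ℕ) : Prop :=
  ∀ (Q : Type) [Group Q] (φ : Q →* MulAut (Sh M p)),
    (∀ q b, ∃ b', φ q (Sh.gen M p b) = Sh.gen M p b') → C Q → C (Sh M p ⋊[φ] Q)

variable {C : ∀ (G : Type) [Group G], Prop}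

theorem ExtIn.semi (hC : ClosedE C) {B : Type} {M : CoxeterMatrix B} {p : B → ℕ}
    (h : ExtIn C M p) : SemiIn C M p := by
  intro Q _ φ hφ hQ
  exact h _ _ (inlE φ) (semi_loc φ hφ) (semi_quot φ hC hQ)

theorem ExtIn.mem (hC : ClosedE C) {B : Type} {M : CoxeterMatrix B} {p : B → ℕ}
    (h : ExtIn C M p) : C (Sh M p) := by
  refine h (Sh M p) ⊤ Subgroup.topEquiv.symm ?_ ?_
  · intro g F _
    exact ⟨g, Subgroup.mem_top g, fun b _ => ⟨b, rfl⟩⟩
  · have : Subsingleton (Sh M p ⧸ (⊤ : Subgroup (Sh M p))) := QuotientGroup.subsingleton_quotient_top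
    exact hC.base.of_injective _ _ (1 : _ →* Multiplicative ℤ)
      (fun x y _ => Subsingleton.elim x y) hC.base.int

theorem even_iff' (hC : ClosedE C) {B : Type} {M : CoxeterMatrix B} {p : B → ℕ} (hA : Adm M p)
    (hM : Evn M) : ExtIn C M p ↔ CliquesIn C M p := by
  constructor
  · intro h A hAf _
    have : Finite A := hAf
    exact hC.base.of_injective _ _ (inc M p (Subtype.val : A → B) Subtype.val_injective)
      (inc_inj hA _ Subtype.val_injective) (h.mem hC)
  · intro hK G _ N _ e hloc hQ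
    exact even_main e hC hA hM hK hloc hQ

end Pool.Agent.U38.AK
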