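import Pool.Agent.U38.AK.Cor
import Pool.Agent.U38.LR.VA

/-!
# Extensions by even Artin groups and even Shephard groups
-/

set_option autoImplicit false

namespace Pool.Agent.U38.AK

open Pool.Agent.Y110.FJ
open Pool.Agent.Helper741 (alt map_alt alt_one alt_mul_two)
open Pool.Agent.K7.H87.FJ6 (Sh Adm pull)
open Pool.Agent.U38.LR (Ev Evr Grp ER ev_pow ev_rel evHom evHom_of evrTo evrFrom evrTo_evrFrom ev_mem
  evrFrom_evrTo fc_clique)

variable {C : ∀ (G : Type) [Group G], Prop}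

/-- half the labels -/
def hf {B : Type} (M : CoxeterMatrix B) (x y : B) : ℕ := M x y / 2

/-- the labels of different elements are even -/
def Evn {B : Type} (M : CoxeterMatrix B) : Prop := ∀ x y, x ≠ y → Even (M x y)

section cmp

variable {B : Type} {M : CoxeterMatrix B} {p : B → ℕ}

theorem two_hf (hM : Evn M) {x y : B} (h : x ≠ y) : 2 * hf M x y = M x y := by
  obtain ⟨k, hk⟩ := hM x y h
  unfold hf
  omega

theorem to_ev (hM : Evn M) : ∃ f : Sh M p →* Ev p (hf M), Function.Injective f := by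
  obtain ⟨f, hf'⟩ : ∃ f : Sh M p →* Ev p (hf M), ∀ i, f (Sh.gen M p i) = PresentedGroup.of i := by
    refine ⟨Sh.lift (fun i => PresentedGroup.of i) (fun i j => ?_) (fun i => ev_pow i),
      fun i => Sh.lift_gen _ _ _ _⟩
    by_cases hij : i = j
    · rw [hij]
    · rw [← two_hf hM hij, alt_mul_two, alt_mul_two]
      exact ev_rel hij
  obtain ⟨g, hg⟩ : ∃ g : Ev p (hf M) →* Sh M p, ∀ i, g (PresentedGroup.of i) = Sh.gen M p i := by
    refine ⟨evHom (fun i => Sh.gen M p i) (fun i => Sh.pow i) (fun i j hij => ?_),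
      fun i => evHom_of _ _ _ i⟩
    rw [← alt_mul_two, ← alt_mul_two, two_hf hM hij]
    exact Sh.rel i j
  refine ⟨f, Function.LeftInverse.injective (g := g) fun x => ?_⟩
  have h : g.comp f = MonoidHom.id _ := Sh.hom_ext fun i => by
    rw [MonoidHom.comp_apply, hf', hg]
    rfl
  exact DFunLike.congr_fun h x

theorem of_ev (hM : Evn M) : ∃ f : Ev p (hf M) →* Sh M p, Function.Injective f := by
  obtain ⟨f, hf'⟩ : ∃ f : Sh M p →* Ev p (hf M), ∀ i, f (Sh.gen M p i) = PresentedGroup.of i := by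
    refine ⟨Sh.lift (fun i => PresentedGroup.of i) (fun i j => ?_) (fun i => ev_pow i),
      fun i => Sh.lift_gen _ _ _ _⟩
    by_cases hij : i = j
    · rw [hij]
    · rw [← two_hf hM hij, alt_mul_two, alt_mul_two]
      exact ev_rel hij
  obtain ⟨g, hg⟩ : ∃ g : Ev p (hf M) →* Sh M p, ∀ i, g (PresentedGroup.of i) = Sh.gen M p i := by
    refine ⟨evHom (fun i => Sh.gen M p i) (fun i => Sh.pow i) (fun i j hij => ?_),
      fun i => evHom_of _ _ _ i⟩
    rw [← alt_mul_two, ← alt_mul_two, two_hf hM hij]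
    exact Sh.rel i j
  refine ⟨g, Function.LeftInverse.injective (g := f) fun x => ?_⟩
  have h : f.comp g = MonoidHom.id _ := PresentedGroup.ext fun i => by
    rw [MonoidHom.comp_apply, hg, hf']
    rfl
  exact DFunLike.congr_fun h x

theorem hf_symm (M : CoxeterMatrix B) (u v : B) : hf M u v = hf M v u := by
  unfold hf
  rw [M.symmetric]

/-- an even group is in the class if those of its finite cliques are -/
theorem even_red (hC : ClosedE C) (hM : Evn M)
    (h : ∀ A : Set B, A.Finite → (∀ x ∈ A, ∀ y ∈ A, M x y ≠ 0) →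
      C (Sh (pull M (Subtype.val : A → B) Subtype.val_injective) (p ∘ Subtype.val))) :
    C (Sh M p) := by
  obtain ⟨f, hf'⟩ := to_ev (p := p) hM
  refine hC.base.of_injective _ _ f hf' (ev_mem hC (hf_symm M) fun τ hτ hcl => ?_)
  refine hC.base.of_injective _ _ (evrFrom p (hf M) τ)
    (Function.LeftInverse.injective evrTo_evrFrom) ?_
  obtain ⟨g, hg⟩ := of_ev (M := pull M (Subtype.val : τ → B) Subtype.val_injective)
    (p := p ∘ Subtype.val) (fun x y hxy => hM _ _ fun h => hxy (Subtype.ext h))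
  refine hC.base.of_injective _ _ g hg (h τ hτ fun x hx y hy => ?_)
  by_cases hxy : x = y
  · rw [hxy, M.diagonal]
    exact one_ne_zero
  · intro h0
    apply hcl x hx y hy hxy
    unfold hf
    rw [h0]

/-- even groups of type FC -/
theorem even_fc (hC : ClosedE C) (hM : Evn M)
    (h3 : ∀ x y z, x ≠ y → y ≠ z → x ≠ z → M x y ≠ 0 → M y z ≠ 0 → M x z ≠ 0 →
      M x y = 2 ∨ M y z = 2)
    (hp : ∀ x y, x ≠ y → 2 < M x y → p x = 0 ∨ p y = 0 ∨ p x = 2 ∧ p y = 2) : C (Sh M p) := by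
  obtain ⟨f, hf'⟩ := to_ev (p := p) hM
  refine hC.base.of_injective _ _ f hf' (ev_mem hC (hf_symm M) fun τ hτ hcl => ?_)
  refine fc_clique hC (hf_symm M) ?_ ?_ _ τ hτ le_rfl hcl
  · intro u v w huv hvw huw h1 h2 h4
    rcases h3 u v w huv hvw huw (fun h => h1 (by unfold hf; rw [h]))
      (fun h => h2 (by unfold hf; rw [h])) (fun h => h4 (by unfold hf; rw [h])) with h | h
    · left
      unfold hf
      rw [h]
    · right
      unfold hf
      rw [h]
  · intro u v huv h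
    refine hp u v huv ?_
    unfold hf at h
    omega

end cmp

section main

variable {G B : Type} [Group G] {N : Subgroup G} {M : CoxeterMatrix B} {p : B → ℕ}
  (e : Sh M p ≃* N)

/-- the cliques of `(M', p')` come from cliques of `(M, p)` -/
def LocP {T B : Type} (M' : CoxeterMatrix T) (p' : T → ℕ) (M : CoxeterMatrix B) (p : B → ℕ) : Prop :=
  ∀ A : Set T, (∀ x ∈ A, ∀ y ∈ A, M' x y ≠ 0) →
    ∃ f : T → B, (∀ x ∈ A, ∀ y ∈ A, M (f x) (f y) = M' x y) ∧ ∀ x ∈ A, p (f x) = p' x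

theorem LocP.loc {T : Type} {M' : CoxeterMatrix T} {p' : T → ℕ} (h : LocP M' p' M p) :
    Loc M' M := fun A hA => by
  obtain ⟨f, h1, -⟩ := h A hA
  exact ⟨f, h1⟩

theorem LocP.two {T : Type} {M' : CoxeterMatrix T} {p' : T → ℕ} (h : LocP M' p' M p)
    {x y : T} (hxy : x ≠ y) (h0 : M' x y ≠ 0) :
    ∃ a b : B, a ≠ b ∧ M a b = M' x y ∧ p a = p' x ∧ p b = p' y := by
  have h0' : M' y x ≠ 0 := by rwa [M'.symmetric]
  obtain ⟨f, hf, hfp⟩ := h {x, y} (by
    rintro a (rfl | rfl) b (rfl | rfl)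
    · rw [M'.diagonal]
      exact one_ne_zero
    · exact h0
    · exact h0'
    · rw [M'.diagonal]
      exact one_ne_zero)
  have h1 := hf x (Or.inl rfl) y (Or.inr rfl)
  refine ⟨f x, f y, fun h2 => ?_, h1, hfp x (Or.inl rfl), hfp y (Or.inr rfl)⟩
  rw [h2, M.diagonal] at h1
  exact M'.off_diagonal x y hxy h1.symm

theorem Loc.three {T : Type} {M' : CoxeterMatrix T} (h : Loc M' M)
    (x y z : T) (hxy : x ≠ y) (hyz : y ≠ z) (hxz : x ≠ z) (h1 : M' x y ≠ 0) (h2 : M' y z ≠ 0)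
    (h3 : M' x z ≠ 0) : ∃ a b c : B, a ≠ b ∧ b ≠ c ∧ a ≠ c ∧ M a b = M' x y ∧ M b c = M' y z ∧
      M a c = M' x z := by
  have h1' : M' y x ≠ 0 := by rwa [M'.symmetric]
  have h2' : M' z y ≠ 0 := by rwa [M'.symmetric]
  have h3' : M' z x ≠ 0 := by rwa [M'.symmetric]
  have h4 : ∀ t, M' t t ≠ 0 := fun t => by
    rw [M'.diagonal]
    exact one_ne_zero
  obtain ⟨f, hf⟩ := h {x, y, z} (by
    rintro a (rfl | rfl | rfl) b (rfl | rfl | rfl)
    · exact h4 _
    · exact h1
    · exact h3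
    · exact h1'
    · exact h4 _
    · exact h2
    · exact h3'
    · exact h2'
    · exact h4 _)
  have hx : x ∈ ({x, y, z} : Set T) := Or.inl rfl
  have hy : y ∈ ({x, y, z} : Set T) := Or.inr (Or.inl rfl)
  have hz : z ∈ ({x, y, z} : Set T) := Or.inr (Or.inr rfl)
  have hne : ∀ a b : T, a ∈ ({x, y, z} : Set T) → b ∈ ({x, y, z} : Set T) → a ≠ b → f a ≠ f b := by
    intro a b ha hb hab h5
    have h6 := hf a ha b hb
    rw [h5, M.diagonal] at h6
    exact M'.off_diagonal a b hab h6.symm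
  exact ⟨f x, f y, f z, hne _ _ hx hy hxy, hne _ _ hy hz hyz, hne _ _ hx hz hxz, hf x hx y hy,
    hf y hy z hz, hf x hx z hz⟩

theorem LocP.evn {T : Type} {M' : CoxeterMatrix T} {p' : T → ℕ} (h : LocP M' p' M p)
    (hM : Evn M) : Evn M' := by
  intro x y hxy
  by_cases h0 : M' x y = 0
  · rw [h0]
    exact ⟨0, rfl⟩
  · obtain ⟨a, b, hab, h1, -⟩ := h.two hxy h0
    rw [← h1]
    exact hM a b hab

/-- **extensions by even groups** -/
theorem even_main (hC : ClosedE C) (hA : Adm M p) (hM : Evn M)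
    (hK : ∀ A : Set B, A.Finite → (∀ x ∈ A, ∀ y ∈ A, M x y ≠ 0) →
      C (Sh (pull M (Subtype.val : A → B) Subtype.val_injective) (p ∘ Subtype.val)))
    [N.Normal] (hloc : LocStd e) (hQ : C (G ⧸ N)) : C G := by
  refine sh_main e hC hA (fun T _ M' p' _ (hcl : LocP M' p' M p) => ?_) hloc hQ
  refine even_red hC (hcl.evn hM) fun A hAf hAcl => ?_
  obtain ⟨f, hf1, hf2⟩ := hcl A hAcl
  have hfinj : Set.InjOn f A := by
    intro x hx y hy hxy
    by_contra hne
    have h1 := hf1 x hx y hy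
    rw [hxy, M.diagonal] at h1
    exact M'.off_diagonal x y hne h1.symm
  have h1 := hK (f '' A) (hAf.image f) (by
    rintro _ ⟨x, hx, rfl⟩ _ ⟨y, hy, rfl⟩
    rw [hf1 x hx y hy]
    exact hAcl x hx y hy)
  obtain ⟨κ, hκ⟩ : ∃ κ : A → f '' A, κ = fun x => ⟨f x, ⟨x, x.2, rfl⟩⟩ := ⟨_, rfl⟩
  have hκinj : Function.Injective κ := by
    intro x y hxy
    rw [hκ] at hxy
    exact Subtype.ext (hfinj x.2 y.2 (congrArg Subtype.val hxy))
  have : Finite A := hAf
  have h2 := inc_inj (hA.pull (Subtype.val : f '' A → B) Subtype.val_injective) κ hκinj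
  have h3 : pull (pull M (Subtype.val : f '' A → B) Subtype.val_injective) κ hκinj =
      pull M' (Subtype.val : A → T) Subtype.val_injective := by
    ext x y
    show M (κ x).1 (κ y).1 = M' x y
    rw [hκ]
    exact hf1 x x.2 y y.2
  have h4 : (p ∘ (Subtype.val : f '' A → B)) ∘ κ = p' ∘ (Subtype.val : A → T) := by
    funext x
    show p (κ x).1 = p' x
    rw [hκ]
    exact hf2 x x.2
  rw [← h3, ← h4]
  exact hC.base.of_injective _ _ _ h2 h1

/-- **extensions by even groups of type FC** -/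
theorem evenfc_main (hC : ClosedE C) (hA : Adm M p) (hM : Evn M)
    (h3 : ∀ x y z, x ≠ y → y ≠ z → x ≠ z → M x y ≠ 0 → M y z ≠ 0 → M x z ≠ 0 →
      M x y = 2 ∨ M y z = 2)
    (hp : ∀ x y, x ≠ y → 2 < M x y → p x = 0 ∨ p y = 0 ∨ p x = 2 ∧ p y = 2)
    [N.Normal] (hloc : LocStd e) (hQ : C (G ⧸ N)) : C G := by
  refine sh_main e hC hA (fun T _ M' p' _ (hcl : LocP M' p' M p) => ?_) hloc hQ
  refine even_fc hC (hcl.evn hM) ?_ ?_
  · intro x y z hxy hyz hxz h1 h2 h4
    obtain ⟨a, b, c, hab, hbc, hac, e1, e2, e3⟩ := hcl.loc.three x y z hxy hyz hxz h1 h2 h4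
    rw [← e1, ← e2]
    exact h3 a b c hab hbc hac (by rwa [e1]) (by rwa [e2]) (by rwa [e3])
  · intro x y hxy h
    obtain ⟨a, b, hab, e1, e2, e3⟩ := hcl.two hxy (by omega)
    rw [← e2, ← e3]
    exact hp a b hab (by rwa [e1])

end main

end Pool.Agent.U38.AK
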