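import Pool.Agent.U38.AK.Main

/-!
# Extension of a finite partial isomorphism of a Coxeter matrix with exponents
-/

set_option autoImplicit false

namespace Pool.Agent.U38.AK

open Pool.Agent.K7.H87.FJ6

/-- convex sets of integers which meet pairwise have a common point -/
theorem helly_int {ι : Type*} (s : Finset ι) : ∀ I : ι → Set ℤ,
    (∀ a ∈ s, ∀ x ∈ I a, ∀ y ∈ I a, ∀ z, x ≤ z → z ≤ y → z ∈ I a) →
    (∀ a ∈ s, ∀ b ∈ s, ∃ x, x ∈ I a ∧ x ∈ I b) → ∃ k, ∀ a ∈ s, k ∈ I a := by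
  classical
  induction s using Finset.induction_on with
  | empty => exact fun _ _ _ => ⟨0, fun a ha => absurd ha (Finset.notMem_empty a)⟩
  | insert c s hc ih =>
    intro I hconv hpair
    rcases s.eq_empty_or_nonempty with rfl | ⟨a0, ha0⟩
    · obtain ⟨x, hx, -⟩ := hpair c (Finset.mem_insert_self _ _) c (Finset.mem_insert_self _ _)
      refine ⟨x, fun a ha => ?_⟩
      rw [Finset.mem_insert] at ha
      rcases ha with rfl | ha
      · exact hx
      · exact absurd ha (Finset.notMem_empty a)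
    · obtain ⟨k, hk⟩ := ih (fun a => I a ∩ I c) (by
        rintro a ha x ⟨hx, hx'⟩ y ⟨hy, hy'⟩ z h1 h2
        exact ⟨hconv a (Finset.mem_insert_of_mem ha) x hx y hy z h1 h2,
          hconv c (Finset.mem_insert_self _ _) x hx' y hy' z h1 h2⟩) (by
        intro a ha b hb
        have ha' := Finset.mem_insert_of_mem (a := a) (b := c) ha
        have hb' := Finset.mem_insert_of_mem (a := b) (b := c) hb
        have hc' := Finset.mem_insert_self c s
        obtain ⟨x, x1, x2⟩ := hpair a ha' b hb'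
        obtain ⟨y, y1, y2⟩ := hpair a ha' c hc'
        obtain ⟨z, z1, z2⟩ := hpair b hb' c hc'
        have hA := hconv a ha'
        have hB := hconv b hb'
        have hC := hconv c hc'
        rcases le_total x y with h1 | h1 <;> rcases le_total y z with h2 | h2 <;>
          rcases le_total x z with h3 | h3
        · exact ⟨y, ⟨y1, y2⟩, hB x x2 z z1 y h1 h2, y2⟩
        · exact ⟨y, ⟨y1, y2⟩, hB z z1 x x2 y (by omega) (by omega), y2⟩
        · exact ⟨z, ⟨hA x x1 y y1 z h3 h2, z2⟩, z1, z2⟩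
        · exact ⟨x, ⟨x1, hC z z2 y y2 x h3 h1⟩, x2, hC z z2 y y2 x h3 h1⟩
        · exact ⟨x, ⟨x1, hC y y2 z z2 x h1 h3⟩, x2, hC y y2 z z2 x h1 h3⟩
        · exact ⟨z, ⟨hA y y1 x x1 z h2 h3, z2⟩, z1, z2⟩
        · exact ⟨y, ⟨y1, y2⟩, hB z z1 x x2 y h2 h1, y2⟩
        · exact ⟨y, ⟨y1, y2⟩, hB z z1 x x2 y h2 h1, y2⟩)
      refine ⟨k, fun a ha => ?_⟩
      rw [Finset.mem_insert] at ha
      rcases ha with rfl | ha
      · exact (hk a0 ha0).2
      · exact (hk a ha).1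

theorem inv_self' {B : Type} (σ : Equiv.Perm B) (x : B) : σ⁻¹ (σ x) = x := σ.symm_apply_apply x

section hat

variable {B : Type} (σ : Equiv.Perm B) (D : Set B)

/-- the positions `k` and `k + 1` of the orbit with the coordinate `u` are glued -/
def gst (u : B) (k : ℤ) : Prop := (σ ^ (-(k + 1))) u ∈ D

/-- the gluing -/
def hatSetoid : Setoid (B × ℤ) where
  r a b := a.1 = b.1 ∧ ∀ k : ℤ, (a.2 ≤ k ∧ k < b.2) ∨ (b.2 ≤ k ∧ k < a.2) → gst σ D a.1 k
  iseqv :=
    { refl := fun a => ⟨rfl, fun k hk => by omega⟩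
      symm := fun {a b} h => ⟨h.1.symm, fun k hk => by rw [← h.1]; exact h.2 k (by omega)⟩
      trans := fun {a b c} h h' => ⟨h.1.trans h'.1, fun k hk => by
        by_cases h1 : (a.2 ≤ k ∧ k < b.2) ∨ (b.2 ≤ k ∧ k < a.2)
        · exact h.2 k h1
        · rw [h.1]
          exact h'.2 k (by omega)⟩ }

/-- the union of copies of `B` indexed by the integers, where two consecutive copies are glued along
the partial map -/
def Hat : Type := Quotient (hatSetoid σ D)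

/-- the point `σ ^ (-k) u` of the copy number `k` -/
def hq (u : B) (k : ℤ) : Hat σ D := Quotient.mk (hatSetoid σ D) (u, k)

variable {σ D}

theorem hq_eq {u v : B} {i j : ℤ} : hq σ D u i = hq σ D v j ↔
    u = v ∧ ∀ k : ℤ, (i ≤ k ∧ k < j) ∨ (j ≤ k ∧ k < i) → gst σ D u k :=
  ⟨fun h => Quotient.exact h, fun h => Quotient.sound h⟩

theorem hq_rep (c : Hat σ D) : ∃ u k, hq σ D u k = c := by
  induction c using Quotient.inductionOn with
  | h x => exact ⟨x.1, x.2, rfl⟩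

theorem hq_conv {c : Hat σ D} {u v : B} {i j k : ℤ} (hi : hq σ D u i = c) (hj : hq σ D v j = c)
    (h1 : i ≤ k) (h2 : k ≤ j) : hq σ D u k = c := by
  rw [← hi]
  have h := hq_eq.1 (hi.trans hj.symm)
  exact hq_eq.2 ⟨rfl, fun l hl => h.2 l (by omega)⟩

variable {M : CoxeterMatrix B} {p : B → ℕ}

theorem sig_step (u : B) (j : ℤ) : σ ((σ ^ (-(j + 1))) u) = (σ ^ (-j)) u := by
  rw [← Equiv.Perm.mul_apply, ← zpow_one_add]
  congr 2
  ring

theorem const_lab (hM : ∀ x ∈ D, ∀ y ∈ D, M (σ x) (σ y) = M x y) (u v : B) (k : ℤ) (n : ℕ) :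
    (∀ j : ℤ, k ≤ j → j < k + n → gst σ D u j ∧ gst σ D v j) →
    M ((σ ^ (-k)) u) ((σ ^ (-k)) v) = M ((σ ^ (-(k + n))) u) ((σ ^ (-(k + n))) v) := by
  induction n with
  | zero => intro _; simp
  | succ n ih =>
    intro h
    rw [ih fun j h1 h2 => h j h1 (by push_cast; omega)]
    obtain ⟨h1, h2⟩ := h (k + n) (by omega) (by push_cast; omega)
    have h3 := hM _ h1 _ h2
    rw [sig_step, sig_step] at h3
    rw [h3]
    push_cast
    rw [add_assoc]

theorem const_p (hp : ∀ x ∈ D, p (σ x) = p x) (u : B) (k : ℤ) (n : ℕ) :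
    (∀ j : ℤ, k ≤ j → j < k + n → gst σ D u j) →
    p ((σ ^ (-k)) u) = p ((σ ^ (-(k + n))) u) := by
  induction n with
  | zero => intro _; simp
  | succ n ih =>
    intro h
    rw [ih fun j h1 h2 => h j h1 (by push_cast; omega)]
    have h3 := hp _ (h (k + n) (by omega) (by push_cast; omega))
    rw [sig_step] at h3
    rw [h3]
    push_cast
    rw [add_assoc]

variable (M p) in
open Classical in
/-- the labels -/
noncomputable def hlab (c d : Hat σ D) : ℕ :=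
  if h : ∃ x : (B × B) × ℤ, hq σ D x.1.1 x.2 = c ∧ hq σ D x.1.2 x.2 = d then
    M ((σ ^ (-h.choose.2)) h.choose.1.1) ((σ ^ (-h.choose.2)) h.choose.1.2) else 0

theorem lab_const (hM : ∀ x ∈ D, ∀ y ∈ D, M (σ x) (σ y) = M x y) {u v u' v' : B} {k k' : ℤ}
    (h1 : hq σ D u' k' = hq σ D u k) (h2 : hq σ D v' k' = hq σ D v k) :
    M ((σ ^ (-k')) u') ((σ ^ (-k')) v') = M ((σ ^ (-k)) u) ((σ ^ (-k)) v) := by
  obtain ⟨rfl, h3⟩ := hq_eq.1 h1
  obtain ⟨rfl, h4⟩ := hq_eq.1 h2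
  rcases le_total k k' with h | h
  · obtain ⟨n, rfl⟩ := Int.le.dest h
    exact (const_lab hM u' v' k n fun j h5 h6 => ⟨h3 j (Or.inr ⟨h5, h6⟩), h4 j (Or.inr ⟨h5, h6⟩)⟩).symm
  · obtain ⟨n, rfl⟩ := Int.le.dest h
    exact const_lab hM u' v' k' n fun j h5 h6 => ⟨h3 j (Or.inl ⟨h5, h6⟩), h4 j (Or.inl ⟨h5, h6⟩)⟩

theorem p_const (hp : ∀ x ∈ D, p (σ x) = p x) {u u' : B} {k k' : ℤ}
    (h1 : hq σ D u' k' = hq σ D u k) : p ((σ ^ (-k')) u') = p ((σ ^ (-k)) u) := by
  obtain ⟨rfl, h3⟩ := hq_eq.1 h1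
  rcases le_total k k' with h | h
  · obtain ⟨n, rfl⟩ := Int.le.dest h
    exact (const_p hp u' k n fun j h5 h6 => h3 j (Or.inr ⟨h5, h6⟩)).symm
  · obtain ⟨n, rfl⟩ := Int.le.dest h
    exact const_p hp u' k' n fun j h5 h6 => h3 j (Or.inl ⟨h5, h6⟩)

theorem hlab_of (hM : ∀ x ∈ D, ∀ y ∈ D, M (σ x) (σ y) = M x y) (u v : B) (k : ℤ) :
    hlab M (hq σ D u k) (hq σ D v k) = M ((σ ^ (-k)) u) ((σ ^ (-k)) v) := by
  have h : ∃ x : (B × B) × ℤ, hq σ D x.1.1 x.2 = hq σ D u k ∧ hq σ D x.1.2 x.2 = hq σ D v k :=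
    ⟨((u, v), k), rfl, rfl⟩
  rw [hlab, dif_pos h]
  exact lab_const hM h.choose_spec.1 h.choose_spec.2

theorem hlab_lift {c d : Hat σ D} (h : hlab M c d ≠ 0) :
    ∃ u v k, hq σ D u k = c ∧ hq σ D v k = d := by
  by_contra hcon
  apply h
  rw [hlab, dif_neg]
  rintro ⟨x, h1, h2⟩
  exact hcon ⟨x.1.1, x.1.2, x.2, h1, h2⟩

variable (p) in
/-- the exponents -/
noncomputable def hp' (c : Hat σ D) : ℕ := p ((σ ^ (-(Quotient.out c : B × ℤ).2)) (Quotient.out c : B × ℤ).1)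

theorem hp'_of (hp : ∀ x ∈ D, p (σ x) = p x) (u : B) (k : ℤ) :
    hp' p (hq σ D u k) = p ((σ ^ (-k)) u) :=
  p_const hp (Quotient.out_eq (hq σ D u k))

/-- the matrix -/
noncomputable def hmat (hM : ∀ x ∈ D, ∀ y ∈ D, M (σ x) (σ y) = M x y) :
    CoxeterMatrix (Hat σ D) where
  M := Matrix.of fun c d => hlab M c d
  isSymm := by
    ext c d
    simp only [Matrix.transpose_apply, Matrix.of_apply]
    by_cases h : ∃ u v k, hq σ D u k = c ∧ hq σ D v k = d
    · obtain ⟨u, v, k, rfl, rfl⟩ := h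
      rw [hlab_of hM, hlab_of hM, M.symmetric]
    · have h1 : hlab M c d = 0 := by
        by_contra h2
        exact h (hlab_lift h2)
      have h2 : hlab M d c = 0 := by
        by_contra h2
        obtain ⟨u, v, k, h3, h4⟩ := hlab_lift h2
        exact h ⟨v, u, k, h4, h3⟩
      rw [h1, h2]
  diagonal c := by
    simp only [Matrix.of_apply]
    obtain ⟨u, k, rfl⟩ := hq_rep c
    rw [hlab_of hM, M.diagonal]
  off_diagonal c d hcd := by
    simp only [Matrix.of_apply]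
    intro h
    obtain ⟨u, v, k, rfl, rfl⟩ := hlab_lift (M := M) (c := c) (d := d) (by rw [h]; exact one_ne_zero)
    rw [hlab_of hM] at h
    refine M.off_diagonal _ _ (fun h' => ?_) h
    exact hcd (by rw [(σ ^ (-k)).injective h'])

variable (hM : ∀ x ∈ D, ∀ y ∈ D, M (σ x) (σ y) = M x y) (hp : ∀ x ∈ D, p (σ x) = p x)

theorem hmat_apply (c d : Hat σ D) : hmat hM c d = hlab M c d := rfl

theorem adm_hat (hA : Adm M p) (hp : ∀ x ∈ D, p (σ x) = p x) : Adm (hmat hM) (hp' p) where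
  even c := hA.even _
  odd c d h := by
    rw [hmat_apply] at h
    obtain ⟨u, v, k, rfl, rfl⟩ := hlab_lift (M := M) (c := c) (d := d) (by
      rintro h0
      rw [h0] at h
      exact absurd h (by decide))
    rw [hlab_of hM] at h
    rw [hp'_of hp, hp'_of hp]
    exact hA.odd _ _ h

variable (σ D) in
/-- the shift -/
def htau : Equiv.Perm (Hat σ D) where
  toFun := Quotient.map' (fun x => (σ x.1, x.2 + 1)) (by
    rintro a b ⟨h1, h2⟩
    refine ⟨by rw [h1], fun k hk => ?_⟩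
    have h3 := h2 (k - 1) (by simp only at hk ⊢; omega)
    unfold gst at h3 ⊢
    simp only at h3 ⊢
    rw [show -(k + 1) = -(k - 1 + 1) - 1 by ring, zpow_sub_one, Equiv.Perm.mul_apply,
      inv_self']
    exact h3)
  invFun := Quotient.map' (fun x => (σ⁻¹ x.1, x.2 - 1)) (by
    rintro a b ⟨h1, h2⟩
    refine ⟨by rw [h1], fun k hk => ?_⟩
    have h3 := h2 (k + 1) (by simp only at hk ⊢; omega)
    unfold gst at h3 ⊢
    simp only at h3 ⊢
    rw [← Equiv.Perm.mul_apply, ← zpow_sub_one, show -(k + 1) - 1 = -(k + 1 + 1) by ring]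
    exact h3)
  left_inv c := by
    induction c using Quotient.inductionOn' with
    | h x =>
      show Quotient.mk'' _ = Quotient.mk'' _
      simp
  right_inv c := by
    induction c using Quotient.inductionOn' with
    | h x =>
      show Quotient.mk'' _ = Quotient.mk'' _
      simp

theorem htau_hq (u : B) (k : ℤ) : htau σ D (hq σ D u k) = hq σ D (σ u) (k + 1) := rfl

theorem htau_symm_hq (u : B) (k : ℤ) : (htau σ D).symm (hq σ D u k) = hq σ D (σ⁻¹ u) (k - 1) := rfl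

theorem hlab_tau (c d : Hat σ D) : hmat hM (htau σ D c) (htau σ D d) = hmat hM c d := by
  rw [hmat_apply, hmat_apply]
  by_cases h : ∃ u v k, hq σ D u k = c ∧ hq σ D v k = d
  · obtain ⟨u, v, k, rfl, rfl⟩ := h
    rw [htau_hq, htau_hq, hlab_of hM, hlab_of hM]
    rw [show -(k + 1) = -k - 1 by ring, zpow_sub_one, Equiv.Perm.mul_apply, Equiv.Perm.mul_apply,
      inv_self', inv_self']
  · have h1 : hlab M c d = 0 := by
      by_contra h2
      exact h (hlab_lift h2)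
    have h2 : hlab M (htau σ D c) (htau σ D d) = 0 := by
      by_contra h2
      obtain ⟨u, v, k, h3, h4⟩ := hlab_lift h2
      refine h ⟨σ⁻¹ u, σ⁻¹ v, k - 1, ?_, ?_⟩
      · rw [← htau_symm_hq, h3, Equiv.symm_apply_apply]
      · rw [← htau_symm_hq, h4, Equiv.symm_apply_apply]
    rw [h1, h2]

theorem hp_tau (hp : ∀ x ∈ D, p (σ x) = p x) (c : Hat σ D) : hp' p (htau σ D c) = hp' p c := by
  obtain ⟨u, k, rfl⟩ := hq_rep c
  rw [htau_hq, hp'_of hp, hp'_of hp, show -(k + 1) = -k - 1 by ring, zpow_sub_one,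
    Equiv.Perm.mul_apply, inv_self']

theorem hat_clique {A : Set (Hat σ D)} (hA : A.Finite) (hcl : ∀ c ∈ A, ∀ d ∈ A, hmat hM c d ≠ 0) :
    ∃ k, ∀ c ∈ A, ∃ u, hq σ D u k = c := by
  obtain ⟨k, hk⟩ := helly_int hA.toFinset (fun c => {k | ∃ u, hq σ D u k = c}) (by
    rintro c hc x ⟨u, hu⟩ y ⟨v, hv⟩ z h1 h2
    exact ⟨u, hq_conv hu hv h1 h2⟩) (by
    intro c hc d hd
    rw [Set.Finite.mem_toFinset] at hc hd
    obtain ⟨u, v, k, h1, h2⟩ := hlab_lift (M := M) (c := c) (d := d) (hcl c hc d hd)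
    exact ⟨k, ⟨u, h1⟩, ⟨v, h2⟩⟩)
  exact ⟨k, fun c hc => hk c (by rw [Set.Finite.mem_toFinset]; exact hc)⟩

theorem hat_lift {A : Set (Hat σ D)} (hA : A.Finite) (hcl : ∀ c ∈ A, ∀ d ∈ A, hmat hM c d ≠ 0)
    (hp : ∀ x ∈ D, p (σ x) = p x) :
    ∃ f : Hat σ D → B, (∀ c ∈ A, ∀ d ∈ A, M (f c) (f d) = hmat hM c d) ∧
      ∀ c ∈ A, p (f c) = hp' p c := by
  classical
  obtain ⟨k, hk⟩ := hat_clique hM hA hcl
  obtain ⟨g, hg⟩ : ∃ g : Hat σ D → B, ∀ c ∈ A, hq σ D (g c) k = c := by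
    refine ⟨fun c => if h : ∃ u, hq σ D u k = c then h.choose else (hq_rep c).choose,
      fun c hc => ?_⟩
    simp only [dif_pos (hk c hc)]
    exact (hk c hc).choose_spec
  refine ⟨fun c => (σ ^ (-k)) (g c), fun c hc d hd => ?_, fun c hc => ?_⟩
  · have h := hlab_of hM (g c) (g d) k
    rw [hg c hc, hg d hd] at h
    exact h.symm
  · have h := hp'_of hp (g c) k
    rw [hg c hc] at h
    exact h.symm

end hat

/-- **extension of a finite partial isomorphism** of a Coxeter matrix with exponents: it extends to an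
automorphism of a finite matrix whose cliques come from cliques -/
theorem ext_part {B : Type} {M : CoxeterMatrix B} {p : B → ℕ} (hA : Adm M p)
    (D V : Set B) (hV : V.Finite) (hDV : D ⊆ V) (s : B → B)
    (hM : ∀ x ∈ D, ∀ y ∈ D, M (s x) (s y) = M x y) (hp : ∀ x ∈ D, p (s x) = p x) :
    ∃ (T : Type) (_ : Finite T) (M' : CoxeterMatrix T) (p' : T → ℕ) (ι : V → T)
      (τ : Equiv.Perm T), Adm M' p' ∧ Function.Injective ι ∧
      (∀ x y : V, M' (ι x) (ι y) = M x y) ∧ (∀ x : V, p' (ι x) = p x) ∧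
      (∀ x y, M' (τ x) (τ y) = M' x y) ∧ (∀ x, p' (τ x) = p' x) ∧
      (∀ x y : V, (x : B) ∈ D → s x = y → τ (ι x) = ι y) ∧
      ∀ A : Set T, (∀ x ∈ A, ∀ y ∈ A, M' x y ≠ 0) →
        ∃ f : T → B, (∀ x ∈ A, ∀ y ∈ A, M (f x) (f y) = M' x y) ∧ ∀ x ∈ A, p (f x) = p' x := by
  classical
  have hinj : Set.InjOn s D := by
    intro x hx y hy hxy
    by_contra hne
    have h := hM x hx y hy
    rw [hxy, M.diagonal] at h
    exact M.off_diagonal x y hne h.symm
  have : Finite ↑{x | x ∈ D} := hV.subset hDV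
  obtain ⟨σ, hσ⟩ : ∃ σ : Equiv.Perm B, ∀ x ∈ D, σ x = s x := by
    refine ⟨Equiv.extendSubtype (p := fun x => x ∈ D) (q := fun x => x ∈ s '' D)
      (Equiv.Set.imageOfInjOn s D hinj), fun x hx => ?_⟩
    rw [Equiv.extendSubtype_apply_of_mem _ x hx]
    rfl
  have hM' : ∀ x ∈ D, ∀ y ∈ D, M (σ x) (σ y) = M x y := by
    intro x hx y hy
    rw [hσ x hx, hσ y hy]
    exact hM x hx y hy
  have hp2 : ∀ x ∈ D, p (σ x) = p x := by
    intro x hx
    rw [hσ x hx]
    exact hp x hx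
  obtain ⟨T, hT, M', p', ι, τ, hA', hι, hιM, hιp, hτ, hτp, hτι, hcl⟩ :=
    ext_partial (adm_hat hM' hA hp2) (htau σ D) (hlab_tau hM') (hp_tau hp2)
      ((fun x => hq σ D x 0) '' V) (hV.image _)
  have hmem : ∀ x : V, hq σ D (x : B) 0 ∈ (fun x => hq σ D x 0) '' V := fun x => ⟨x, x.2, rfl⟩
  refine ⟨T, hT, M', p', fun x => ι ⟨hq σ D x 0, hmem x⟩, τ, hA', ?_, ?_, ?_, hτ, hτp, ?_, ?_⟩
  · intro x y hxy
    have h := congrArg Subtype.val (hι hxy)
    exact Subtype.ext (hq_eq.1 h).1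
  · intro x y
    rw [hιM]
    show hlab M (hq σ D _ 0) (hq σ D _ 0) = _
    rw [hlab_of hM']
    simp
  · intro x
    rw [hιp]
    show hp' p (hq σ D _ 0) = _
    rw [hp'_of hp2]
    simp
  · intro x y hx hxy
    apply hτι
    show htau σ D (hq σ D _ 0) = hq σ D _ 0
    rw [htau_hq]
    refine hq_eq.2 ⟨?_, fun k hk => ?_⟩
    · rw [hσ _ hx, hxy]
    · have hk0 : k = 0 := by omega
      rw [hk0]
      show (σ ^ (-(0 + 1 : ℤ))) (σ x) ∈ D
      rw [zero_add, zpow_neg_one, inv_self']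
      exact hx
  · intro A hcl'
    obtain ⟨f, hf, hfp⟩ := hcl A hcl'
    have hfin : (f '' A).Finite := (Set.toFinite A).image f
    obtain ⟨g, hg, hgp⟩ := hat_lift (p := p) hM' hfin (by
      rintro _ ⟨x, hx, rfl⟩ _ ⟨y, hy, rfl⟩
      rw [hf x hx y hy]
      exact hcl' x hx y hy) hp2
    refine ⟨fun x => g (f x), fun x hx y hy => ?_, fun x hx => ?_⟩
    · rw [hg _ ⟨x, hx, rfl⟩ _ ⟨y, hy, rfl⟩]
      exact hf x hx y hy
    · rw [hgp _ ⟨x, hx, rfl⟩]
      exact hfp x hx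

end Pool.Agent.U38.AK
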