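import Pool.Agent.U38.AK.Loc

/-!
# Extensions by the infinite braid group
-/

set_option autoImplicit false

namespace Pool.Agent.U38.AK

open Pool.Agent.Y110.FJ
open Pool.Agent.Helper741 (alt map_alt alt_succ alt_zero alt_two)
open Pool.Agent.K7.H87.FJ6

variable {C : ∀ (G : Type) [Group G], Prop}

/-- the Coxeter matrix of the path whose vertices are the integers -/
def lineM : CoxeterMatrix ℤ where
  M := Matrix.of fun i j => if i = j then 1 else if i + 1 = j ∨ j + 1 = i then 3 else 2
  isSymm := by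
    ext i j
    simp only [Matrix.transpose_apply, Matrix.of_apply, eq_comm (a := j) (b := i), or_comm]
  diagonal i := by simp
  off_diagonal i j h := by
    simp only [Matrix.of_apply, if_neg h]
    split_ifs <;> omega

theorem lineM_apply (i j : ℤ) : lineM i j = if i = j then 1 else
    if i + 1 = j ∨ j + 1 = i then 3 else 2 := rfl

section grp

variable {H : Type*} [Group H] (s : ℤ → H)

/-- the product `s a * ... * s (a + n - 1)` -/
def dl (a : ℤ) : ℕ → H
  | 0 => 1
  | n + 1 => dl a n * s (a + n)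

variable {s} (hc : ∀ i j, i + 2 ≤ j → s i * s j = s j * s i)
  (hb : ∀ i, s i * s (i + 1) * s i = s (i + 1) * s i * s (i + 1))

include hc in
theorem dl_comm (a : ℤ) (n : ℕ) (j : ℤ) (hj : a + n < j) : dl s a n * s j = s j * dl s a n := by
  induction n with
  | zero => rw [dl, one_mul, mul_one]
  | succ n ih =>
    push_cast at hj
    rw [dl, mul_assoc, hc (a + n) j (by omega), ← mul_assoc, ih (by omega), mul_assoc]

include hc hb in
theorem dl_shift (a : ℤ) (n : ℕ) : ∀ i, a ≤ i → i + 1 < a + n →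
    dl s a n * s i = s (i + 1) * dl s a n := by
  induction n with
  | zero =>
    intro i h1 h2
    push_cast at h2
    omega
  | succ n ih =>
    intro i h1 h2
    push_cast at h2
    by_cases h3 : i + 1 < a + n
    · rw [dl, mul_assoc, ← hc i (a + n) (by omega), ← mul_assoc, ih i h1 h3, mul_assoc]
    · obtain ⟨m, rfl⟩ : ∃ m, n = m + 1 := ⟨n - 1, by omega⟩
      have hi : i = a + m := by
        push_cast at h2 h3
        omega
      rw [dl, dl, show a + ((m + 1 : ℕ) : ℤ) = i + 1 by rw [hi]; push_cast; ring, ← hi]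
      have h4 := dl_comm hc a m (i + 1) (by omega)
      calc dl s a m * s i * s (i + 1) * s i = dl s a m * (s i * s (i + 1) * s i) := by
            simp only [mul_assoc]
        _ = dl s a m * s (i + 1) * (s i * s (i + 1)) := by rw [hb]; simp only [mul_assoc]
        _ = s (i + 1) * (dl s a m * s i * s (i + 1)) := by rw [h4]; simp only [mul_assoc]

theorem dl_left (a : ℤ) (n : ℕ) : s a * dl s (a + 1) n = dl s a (n + 1) := by
  induction n with
  | zero =>
    rw [dl, dl, dl]
    simp
  | succ n ih =>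
    rw [dl, ← mul_assoc, ih, dl]
    congr 2
    push_cast
    ring

/-- the half twist -/
def hT (s : ℤ → H) (a : ℤ) : ℕ → H
  | 0 => 1
  | n + 1 => dl s a (n + 1) * hT s a n

include hc in
theorem hT_comm (a : ℤ) (n : ℕ) (j : ℤ) (hj : a + n < j) : hT s a n * s j = s j * hT s a n := by
  induction n with
  | zero => rw [hT, one_mul, mul_one]
  | succ n ih =>
    push_cast at hj
    rw [hT, mul_assoc, ih (by omega), ← mul_assoc, dl_comm hc a (n + 1) j (by push_cast; omega),
      mul_assoc]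

include hc hb in
theorem dl_dl (a : ℤ) (n m : ℕ) (hm : m < n) : dl s a n * dl s a m = dl s (a + 1) m * dl s a n := by
  induction m with
  | zero => rw [dl, dl, one_mul, mul_one]
  | succ m ih =>
    rw [dl, ← mul_assoc, ih (by omega), mul_assoc, dl_shift hc hb a n (a + m) (by omega) (by omega),
      dl, ← mul_assoc]
    congr 3
    ring

include hc hb in
theorem hT_refl (n : ℕ) : ∀ (a : ℤ) (j : ℕ), j < n → hT s a n * s (a + j) =
    s (a + n - 1 - j) * hT s a n := by
  induction n with
  | zero => intro a j hj; omega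
  | succ n ih =>
    intro a j hj
    by_cases h : j < n
    · rw [hT, mul_assoc, ih a j h, ← mul_assoc,
        dl_shift hc hb a (n + 1) (a + n - 1 - j) (by omega) (by push_cast; omega), mul_assoc]
      congr 2
      push_cast
      ring
    · obtain rfl : j = n := by omega
      have e1 : a + ((j + 1 : ℕ) : ℤ) - 1 - j = a := by push_cast; ring
      rw [e1]
      rcases j with _ | m
      · rw [hT, hT, dl, dl]
        simp
      · rw [hT, hT]
        have e2 : a + ((m + 1 : ℕ) : ℤ) = a + m + 1 := by push_cast; ring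
        have h1 : hT s a m * s (a + ((m + 1 : ℕ) : ℤ)) = s (a + ((m + 1 : ℕ) : ℤ)) * hT s a m :=
          hT_comm hc a m _ (by push_cast; omega)
        have h2 : dl s a (m + 1) * s (a + ((m + 1 : ℕ) : ℤ)) = dl s a (m + 1 + 1) := rfl
        have h3 := dl_dl hc hb a (m + 1 + 1) (m + 1) (by omega)
        have h4 := dl_left (s := s) a (m + 1)
        calc dl s a (m + 1 + 1) * (dl s a (m + 1) * hT s a m) * s (a + ((m + 1 : ℕ) : ℤ))
            = dl s a (m + 1 + 1) * dl s a (m + 1) * (hT s a m * s (a + ((m + 1 : ℕ) : ℤ))) := by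
              simp only [mul_assoc]
          _ = dl s a (m + 1 + 1) * (dl s a (m + 1) * s (a + ((m + 1 : ℕ) : ℤ))) * hT s a m := by
              rw [h1]; simp only [mul_assoc]
          _ = (s a * dl s (a + 1) (m + 1)) * dl s a (m + 1 + 1) * hT s a m := by rw [h2, h4]
          _ = s a * (dl s a (m + 1 + 1) * dl s a (m + 1)) * hT s a m := by
              rw [h3]; simp only [mul_assoc]
          _ = s a * (dl s a (m + 1 + 1) * (dl s a (m + 1) * hT s a m)) := by simp only [mul_assoc]

include hc hb in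
/-- the translations are inner on every interval -/
theorem trans_inner (k : ℕ) : ∀ (a : ℤ) (L : ℕ), ∃ n : H, ∀ i, a ≤ i → i ≤ a + L →
    n * s i * n⁻¹ = s (i + k) := by
  induction k with
  | zero => exact fun a L => ⟨1, fun i _ _ => by simp⟩
  | succ k ih =>
    intro a L
    obtain ⟨n, hn⟩ := ih a L
    refine ⟨dl s (a + k) (L + 2) * n, fun i h1 h2 => ?_⟩
    have h3 := dl_shift hc hb (a + k) (L + 2) (i + k) (by omega) (by push_cast; omega)
    have h4 : dl s (a + k) (L + 2) * n * s i * (dl s (a + k) (L + 2) * n)⁻¹ =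
        dl s (a + k) (L + 2) * (n * s i * n⁻¹) * (dl s (a + k) (L + 2))⁻¹ := by group
    rw [h4, hn i h1 h2, h3, mul_inv_cancel_right]
    congr 1
    push_cast
    ring

include hc hb in
theorem trans_inner' (c : ℤ) (a : ℤ) (L : ℕ) : ∃ n : H, ∀ i, a ≤ i → i ≤ a + L →
    n * s i * n⁻¹ = s (i + c) := by
  rcases le_total 0 c with h | h
  · obtain ⟨k, rfl⟩ := Int.eq_ofNat_of_zero_le h
    exact trans_inner hc hb k a L
  · obtain ⟨k, hk⟩ := Int.eq_ofNat_of_zero_le (neg_nonneg.2 h)
    obtain ⟨n, hn⟩ := trans_inner hc hb k (a + c) L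
    refine ⟨n⁻¹, fun i h1 h2 => ?_⟩
    have h3 := hn (i + c) (by omega) (by omega)
    rw [show i + c + k = i by omega] at h3
    rw [← h3]
    group

include hc hb in
theorem refl_inner (c : ℤ) (a : ℤ) (L : ℕ) : ∃ n : H, ∀ i, a ≤ i → i ≤ a + L →
    n * s i * n⁻¹ = s (c - i) := by
  obtain ⟨n, hn⟩ := trans_inner' hc hb (c - 2 * a - L) a L
  refine ⟨n * hT s a (L + 1), fun i h1 h2 => ?_⟩
  obtain ⟨j, hj⟩ := Int.eq_ofNat_of_zero_le (sub_nonneg.2 h1)
  have hj' : i = a + j := by omega
  have h3 := hT_refl hc hb (L + 1) a j (by omega)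
  rw [← hj'] at h3
  have h4 : n * hT s a (L + 1) * s i * (n * hT s a (L + 1))⁻¹ =
      n * (hT s a (L + 1) * s i) * (hT s a (L + 1))⁻¹ * n⁻¹ := by group
  have h5 : n * (s (a + ((L + 1 : ℕ) : ℤ) - 1 - j) * hT s a (L + 1)) * (hT s a (L + 1))⁻¹ * n⁻¹ =
      n * s (a + ((L + 1 : ℕ) : ℤ) - 1 - j) * n⁻¹ := by group
  rw [h4, h3, h5, hn _ (by push_cast; omega) (by push_cast; omega)]
  congr 1
  push_cast
  omega

end grp

/-- isometric embeddings of intervals of the path -/
theorem iso_line (s : ℤ → ℤ) (a : ℤ) (n : ℕ)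
    (hstep : ∀ j : ℕ, j < n → s (a + j + 1) = s (a + j) + 1 ∨ s (a + j + 1) + 1 = s (a + j))
    (hinj : ∀ j : ℕ, j + 1 < n → s (a + j + 1 + 1) ≠ s (a + j)) :
    (∀ j : ℕ, j ≤ n → s (a + j) = s a + j) ∨ (∀ j : ℕ, j ≤ n → s (a + j) = s a - j) := by
  induction n with
  | zero =>
    left
    intro j hj
    obtain rfl : j = 0 := by omega
    simp
  | succ n ih =>
    have h1 := ih (fun j hj => hstep j (by omega)) (fun j hj => hinj j (by omega))
    have h2 := hstep n (by omega)
    have e : a + ((n + 1 : ℕ) : ℤ) = a + n + 1 := by push_cast; ring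
    rcases Nat.eq_zero_or_pos n with rfl | hn
    · have e0 : a + ((0 : ℕ) : ℤ) = a := by simp
      rw [e0] at h2
      rcases h2 with h2 | h2
      · left
        intro j hj
        rcases Nat.le_one_iff_eq_zero_or_eq_one.1 hj with rfl | rfl
        · simp
        · push_cast
          exact h2
      · right
        intro j hj
        rcases Nat.le_one_iff_eq_zero_or_eq_one.1 hj with rfl | rfl
        · simp
        · push_cast
          omega
    · obtain ⟨m, rfl⟩ : ∃ m, n = m + 1 := ⟨n - 1, by omega⟩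
      have h3 := hinj m (by omega)
      have e3 : a + ((m + 1 : ℕ) : ℤ) = a + m + 1 := by push_cast; ring
      rw [e3] at h2
      rcases h1 with h1 | h1
      · left
        intro j hj
        rcases Nat.lt_or_ge j (m + 1 + 1) with hj' | hj'
        · exact h1 j (by omega)
        · obtain rfl : j = m + 1 + 1 := by omega
          have h4 := h1 (m + 1) (by omega)
          have h5 := h1 m (by omega)
          rw [e3] at h4
          rw [e, e3]
          push_cast at h4 ⊢
          omega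
      · right
        intro j hj
        rcases Nat.lt_or_ge j (m + 1 + 1) with hj' | hj'
        · exact h1 j (by omega)
        · obtain rfl : j = m + 1 + 1 := by omega
          have h4 := h1 (m + 1) (by omega)
          have h5 := h1 m (by omega)
          rw [e3] at h4
          rw [e, e3]
          push_cast at h4 ⊢
          omega

section main

theorem line_comm (i j : ℤ) (h : i + 2 ≤ j) : Sh.gen lineM 0 i * Sh.gen lineM 0 j =
    Sh.gen lineM 0 j * Sh.gen lineM 0 i := by
  have h1 := Sh.rel (M := lineM) (p := 0) i j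
  rw [lineM_apply, if_neg (by omega), if_neg (by omega), alt_two, alt_two] at h1
  exact h1

theorem line_braid (i : ℤ) : Sh.gen lineM 0 i * Sh.gen lineM 0 (i + 1) * Sh.gen lineM 0 i =
    Sh.gen lineM 0 (i + 1) * Sh.gen lineM 0 i * Sh.gen lineM 0 (i + 1) := by
  have h1 := Sh.rel (M := lineM) (p := 0) i (i + 1)
  rw [lineM_apply, if_neg (by omega), if_pos (by omega)] at h1
  rw [alt_succ, alt_two, alt_succ, alt_two] at h1
  rw [mul_assoc, h1, mul_assoc]

/-- the vertices of the path near the origin -/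
def ιl (k : ℕ) (i : Fin (2 * k + 1)) : ℤ := (i : ℕ) - (k : ℤ)

theorem ιl_inj (k : ℕ) : Function.Injective (ιl k) := by
  intro x y hxy
  unfold ιl at hxy
  ext
  omega

theorem pull_line (k : ℕ) : pull lineM (ιl k) (ιl_inj k) = CoxeterMatrix.A (2 * k + 1) := by
  ext i j
  show (if ιl k i = ιl k j then 1 else if ιl k i + 1 = ιl k j ∨ ιl k j + 1 = ιl k i then 3 else 2) =
    (if i = j then 1 else (if (j : ℕ) + 1 = i ∨ (i : ℕ) + 1 = j then 3 else 2) : ℕ)
  unfold ιl
  by_cases h : i = j
  · subst h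
    simp
  · have h' : (i : ℕ) ≠ j := fun h' => h (Fin.ext h')
    rw [if_neg h, if_neg (by omega)]
    by_cases h2 : (j : ℕ) + 1 = i ∨ (i : ℕ) + 1 = j
    · rw [if_pos h2, if_pos (by omega)]
    · rw [if_neg h2, if_neg (by omega)]

/-- the infinite braid group is the union of the braid groups -/
theorem line_mem (hC : ClosedE C) (hB : ∀ n, C (Sh (CoxeterMatrix.A n) 0)) : C (Sh lineM 0) := by
  have hmono : Monotone fun k => (inc lineM 0 (ιl k) (ιl_inj k)).range := by
    intro k l hkl
    rintro _ ⟨x, rfl⟩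
    induction x using Sh.induction with
    | one => rw [map_one]; exact one_mem _
    | gen i =>
      rw [inc_gen]
      refine ⟨Sh.gen _ _ ⟨(i : ℕ) + (l - k), by omega⟩, ?_⟩
      rw [inc_gen]
      congr 1
      unfold ιl
      push_cast [Nat.cast_sub hkl]
      ring
    | mul x y hx hy => rw [map_mul]; exact mul_mem hx hy
    | inv x hx => rw [map_inv]; exact inv_mem hx
  refine Pool.Agent.Y430.SS.of_directed hC.base (Sh lineM 0) ℕ (fun i j => ⟨max i j, le_max_left _ _,
    le_max_right _ _⟩) (fun k => (inc lineM 0 (ιl k) (ιl_inj k)).range) hmono ?_ ?_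
  · intro g
    induction g using Sh.induction with
    | one => exact ⟨0, one_mem _⟩
    | gen i =>
      refine ⟨i.natAbs, Sh.gen _ _ ⟨(i + i.natAbs).toNat, by omega⟩, ?_⟩
      rw [inc_gen]
      congr 1
      unfold ιl
      simp only
      omega
    | mul x y hx hy =>
      obtain ⟨k, hk⟩ := hx
      obtain ⟨l, hl⟩ := hy
      exact ⟨max k l, mul_mem (hmono (le_max_left k l) hk) (hmono (le_max_right k l) hl)⟩
    | inv x hx =>
      obtain ⟨k, hk⟩ := hx
      exact ⟨k, inv_mem hk⟩
  · intro k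
    have hinj := inc_inj (adm_zero lineM) (ιl k) (ιl_inj k)
    refine hC.base.of_injective _ _ (MonoidHom.ofInjective hinj).symm.toMonoidHom
      (MulEquiv.injective _) ?_
    rw [pull_line]
    exact hB _

variable {G : Type} [Group G] {N : Subgroup G} (e : Sh lineM 0 ≃* N)

/-- the conjugation is locally inner -/
theorem line_inner [N.Normal] (hloc : LocStd e) (g : G) (E : Set G) (hE : E.Finite) (hEN : E ⊆ N) :
    ∃ n ∈ N, ∀ x ∈ E, g * x * g⁻¹ = n * x * n⁻¹ := by
  obtain ⟨J, hJ, hJE⟩ := ex_supp_fin e hE hEN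
  obtain ⟨L, hL⟩ : ∃ L : ℕ, ∀ i ∈ J, -(L : ℤ) ≤ i ∧ i ≤ L := by
    obtain ⟨b, hb⟩ := (hJ.image fun i : ℤ => i.natAbs).bddAbove
    refine ⟨b, fun i hi => ?_⟩
    have h1 := hb ⟨i, hi, rfl⟩
    simp only at h1
    omega
  obtain ⟨n0, hn0, hs⟩ := hloc g (Set.Icc (-(L : ℤ)) L) (Set.finite_Icc _ _)
  obtain ⟨s, hs⟩ : ∃ s : ℤ → ℤ, ∀ b, -(L : ℤ) ≤ b → b ≤ L → g * (e (Sh.gen lineM 0 b) : G) * g⁻¹ =
      n0 * (e (Sh.gen lineM 0 (s b)) : G) * n0⁻¹ := by
    classical
    refine ⟨fun b => if h : b ∈ Set.Icc (-(L : ℤ)) L then (hs b h).choose else b,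
      fun b h1 h2 => ?_⟩
    have hb : b ∈ Set.Icc (-(L : ℤ)) L := ⟨h1, h2⟩
    simp only [dif_pos hb]
    exact (hs b hb).choose_spec
  have hm : ∀ x : G, (n0⁻¹ * g) * x * (n0⁻¹ * g)⁻¹ = n0⁻¹ * (g * x * g⁻¹) * n0 := by
    intro x
    group
  obtain ⟨φ, hφ⟩ : ∃ φ : Sh lineM 0 ≃* Sh lineM 0, ∀ b, -(L : ℤ) ≤ b → b ≤ L →
      φ (Sh.gen lineM 0 b) = Sh.gen lineM 0 (s b) := by
    refine ⟨e.trans ((MulAut.conjNormal (n0⁻¹ * g)).trans e.symm), fun b h1 h2 => ?_⟩
    show e.symm (MulAut.conjNormal (n0⁻¹ * g) (e (Sh.gen lineM 0 b))) = _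
    rw [MulEquiv.symm_apply_eq]
    apply Subtype.ext
    rw [MulAut.conjNormal_apply, hm, hs b h1 h2]
    group
  have hM : ∀ x y, -(L : ℤ) ≤ x → x ≤ L → -(L : ℤ) ≤ y → y ≤ L → lineM (s x) (s y) = lineM x y :=
    fun x y h1 h2 h3 h4 => pres_M (adm_zero lineM) φ (hφ x h1 h2) (hφ y h3 h4)
  have hiso := iso_line s (-(L : ℤ)) (2 * L) (fun j hj => by
    have h1 := hM (-(L : ℤ) + j) (-(L : ℤ) + j + 1) (by omega) (by omega) (by omega) (by omega)
    rw [lineM_apply, lineM_apply, if_neg (by omega : ¬ (-(L : ℤ) + j = -(L : ℤ) + j + 1)),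
      if_pos (Or.inl rfl)] at h1
    split_ifs at h1 <;> omega) (fun j hj h0 => by
    have h1 := hM (-(L : ℤ) + j) (-(L : ℤ) + j + 1 + 1) (by omega) (by omega) (by omega) (by omega)
    rw [lineM_apply, lineM_apply, h0, if_pos rfl,
      if_neg (by omega : ¬ (-(L : ℤ) + j = -(L : ℤ) + j + 1 + 1)), if_neg (by omega)] at h1
    omega)
  obtain ⟨n1, hn1⟩ : ∃ n1 : Sh lineM 0, ∀ i, -(L : ℤ) ≤ i → i ≤ L →
      n1 * Sh.gen lineM 0 i * n1⁻¹ = Sh.gen lineM 0 (s i) := by
    rcases hiso with hiso | hiso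
    · obtain ⟨n, hn⟩ := trans_inner' line_comm line_braid (s (-(L : ℤ)) + L) (-(L : ℤ)) (2 * L)
      refine ⟨n, fun i h1 h2 => ?_⟩
      rw [hn i h1 (by push_cast; omega)]
      obtain ⟨j, hj⟩ := Int.eq_ofNat_of_zero_le (show 0 ≤ i + L by omega)
      have h3 := hiso j (by omega)
      rw [show -(L : ℤ) + j = i by omega] at h3
      rw [h3]
      congr 1
      omega
    · obtain ⟨n, hn⟩ := refl_inner line_comm line_braid (s (-(L : ℤ)) - L) (-(L : ℤ)) (2 * L)
      refine ⟨n, fun i h1 h2 => ?_⟩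
      rw [hn i h1 (by push_cast; omega)]
      obtain ⟨j, hj⟩ := Int.eq_ofNat_of_zero_le (show 0 ≤ i + L by omega)
      have h3 := hiso j (by omega)
      rw [show -(L : ℤ) + j = i by omega] at h3
      rw [h3]
      congr 1
      omega
  refine ⟨n0 * (e n1 : G), mul_mem hn0 (e n1).2, fun x hx => ?_⟩
  have key : ∀ x ∈ PJ e J, g * x * g⁻¹ = n0 * (e n1 : G) * x * (n0 * (e n1 : G))⁻¹ := by
    intro x hx
    induction hx using Subgroup.closure_induction with
    | mem x hx =>
      obtain ⟨b, hb, rfl⟩ := hx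
      obtain ⟨h1, h2⟩ := hL b hb
      show g * (e (Sh.gen lineM 0 b) : G) * g⁻¹ = _
      rw [hs b h1 h2, ← hn1 b h1 h2, map_mul, map_mul, map_inv]
      simp only [Subgroup.coe_mul, Subgroup.coe_inv]
      group
    | one => group
    | mul x y _ _ hx hy =>
      have e1 : g * (x * y) * g⁻¹ = (g * x * g⁻¹) * (g * y * g⁻¹) := by group
      rw [e1, hx, hy]
      group
    | inv x _ hx =>
      have e1 : g * x⁻¹ * g⁻¹ = (g * x * g⁻¹)⁻¹ := by group
      rw [e1, hx]
      group
  exact key x (hJE x hx)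

/-- **extensions by the infinite braid group** -/
theorem braid_main (hC : ClosedE C) (hB : ∀ n, C (Sh (CoxeterMatrix.A n) 0)) [N.Normal]
    (hloc : LocStd e) (hQ : C (G ⧸ N)) : C G :=
  loc_inner hC (hC.base.of_injective _ _ e.symm.toMonoidHom e.symm.injective (line_mem hC hB))
    (line_inner e hloc) hQ

end main

end Pool.Agent.U38.AK
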