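import Pool.Agent.U38.AK.Hat

/-!
# Extensions by Artin groups and Shephard groups: locally standard conjugation
-/

set_option autoImplicit false

namespace Pool.Agent.U38.AK

open Pool.Agent.Y110.FJ
open Pool.Agent.Y462.SS (Closed)
open Pool.Agent.N77.GP (MT il tt mt_pow mt_one tt_conj)
open Pool.Agent.N77.CX (realized_of)
open Pool.Agent.Helper741 (alt map_alt alt_mul_two alt_mul_two_add_one alt_one)
open Pool.Agent.K7.H87.FJ6

variable {C : ∀ (G : Type) [Group G], Prop}

theorem adm_zero {B : Type} (M : CoxeterMatrix B) : Adm M 0 :=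
  ⟨fun _ => ⟨0, rfl⟩, fun _ _ _ => rfl⟩

section rec

variable {B : Type} {M : CoxeterMatrix B} {p : B → ℕ}

theorem alt_swap {A : Type*} [CommMonoid A] (a b : A) {m : ℕ} (h : Even m) :
    alt a b m = alt b a m := by
  obtain ⟨k, rfl⟩ := h
  rw [← two_mul, alt_mul_two, alt_mul_two, mul_comm]

/-- the order of a generator -/
theorem p_dvd (hA : Adm M p) (i : B) {k : ℕ} (h : Sh.gen M p i ^ k = 1) : p i ∣ k := by
  classical
  obtain ⟨f, hf⟩ : ∃ f : Sh M p →* Multiplicative (ZMod (p i)),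
      f (Sh.gen M p i) = Multiplicative.ofAdd 1 := by
    refine ⟨Sh.lift (fun j => if p j = p i then Multiplicative.ofAdd 1 else 1) (fun j l => ?_)
      (fun j => ?_), ?_⟩
    · rcases Nat.even_or_odd (M j l) with he | ho
      · exact alt_swap _ _ he
      · simp only [hA.odd j l ho]
    · split_ifs with hj
      · rw [hj, ← ofAdd_nsmul]
        simp
      · exact one_pow _
    · rw [Sh.lift_gen, if_pos rfl]
  have h1 := congrArg f h
  rw [map_pow, hf, map_one f, ← ofAdd_nsmul] at h1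
  have h2 : (k : ZMod (p i)) = 0 := by simpa using h1
  exact (ZMod.natCast_eq_zero_iff _ _).1 h2

theorem pow_of_alt {W : Type*} [Group W] {a b : W} (ha : a * a = 1) (hb : b * b = 1) {k : ℕ}
    (h : alt a b k = alt b a k) : (a * b) ^ k = 1 := by
  have hi : ∀ m : ℕ, (b * a) ^ m = ((a * b) ^ m)⁻¹ := by
    intro m
    rw [← inv_pow, mul_inv_rev, inv_eq_of_mul_eq_one_left ha, inv_eq_of_mul_eq_one_left hb]
  obtain ⟨m, rfl | rfl⟩ := Nat.even_or_odd' k
  · rw [alt_mul_two, alt_mul_two, hi] at h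
    rw [two_mul, pow_add]
    exact mul_eq_one_iff_eq_inv.2 h
  · rw [alt_mul_two_add_one, alt_mul_two_add_one, hi] at h
    have h1 : (a * b) ^ m * ((a * b) ^ m * a) = b := by rw [h, mul_inv_cancel_left]
    have h2 : (a * b) ^ m * ((a * b) ^ m * a) * b = 1 := by rw [h1, hb]
    rw [← h2, two_mul, pow_succ, pow_add]
    simp only [mul_assoc]

/-- the labels are determined by the generators -/
theorem M_dvd (hA : Adm M p) {i j : B} (hij : i ≠ j) {k : ℕ}
    (h : alt (Sh.gen M p i) (Sh.gen M p j) k = alt (Sh.gen M p j) (Sh.gen M p i) k) :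
    M i j ∣ k := by
  classical
  obtain ⟨P0, hP0⟩ : ∃ P0 : CoxeterMatrix ({i, j} : Set B),
    P0 = pull M (Subtype.val : ({i, j} : Set B) → B) Subtype.val_injective := ⟨_, rfl⟩
  have hi : i ∈ ({i, j} : Set B) := Or.inl rfl
  have hj : j ∈ ({i, j} : Set B) := Or.inr rfl
  have hinj := inc_inj hA (Subtype.val : ({i, j} : Set B) → B) Subtype.val_injective
  have h1 : alt (Sh.gen (pull M (Subtype.val : ({i, j} : Set B) → B) Subtype.val_injective)
      (p ∘ Subtype.val) ⟨i, hi⟩) (Sh.gen _ _ ⟨j, hj⟩) k =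
      alt (Sh.gen _ _ ⟨j, hj⟩) (Sh.gen _ _ ⟨i, hi⟩) k := by
    apply hinj
    rw [map_alt, map_alt, inc_gen, inc_gen]
    exact h
  obtain ⟨cs, hcs⟩ : ∃ cs : CoxeterSystem (pull M (Subtype.val : ({i, j} : Set B) → B)
    Subtype.val_injective) (pull M (Subtype.val : ({i, j} : Set B) → B)
    Subtype.val_injective).Group, cs = CoxeterMatrix.toCoxeterSystem _ := ⟨_, rfl⟩
  obtain ⟨f, hf⟩ : ∃ f : Sh (pull M (Subtype.val : ({i, j} : Set B) → B) Subtype.val_injective)
      (p ∘ Subtype.val) →* _, ∀ x, f (Sh.gen _ _ x) = cs.simple x := by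
    refine ⟨Sh.lift cs.simple (fun _ _ => Pool.Agent.Helper741.alt_comm_of_pow
      (cs.simple_mul_simple_self _) (cs.simple_mul_simple_self _)
      (cs.simple_mul_simple_pow _ _)) (fun x => ?_), fun x => Sh.lift_gen _ _ _ _⟩
    obtain ⟨k, hk⟩ := hA.even x.1
    show cs.simple x ^ (p x.1) = 1
    rw [hk, ← two_mul, pow_mul, cs.simple_sq, one_pow]
  have h2 := congrArg f h1
  rw [map_alt, map_alt, hf, hf] at h2
  have h3 := pow_of_alt (cs.simple_mul_simple_self _) (cs.simple_mul_simple_self _) h2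
  have : Fintype ({i, j} : Set B) := Fintype.ofFinite _
  exact dvd_of_pow cs (fun h4 => hij (congrArg Subtype.val h4)) h3

theorem gen_inj (hA : Adm M p) {i j : B} (h : Sh.gen M p i = Sh.gen M p j) : i = j := by
  by_contra hij
  have h1 := M_dvd hA hij (k := 1) (by rw [alt_one, alt_one, h])
  exact M.off_diagonal i j hij (Nat.dvd_one.1 h1)

theorem pres_p (hA : Adm M p) (φ : Sh M p ≃* Sh M p) {x x' : B}
    (h : φ (Sh.gen M p x) = Sh.gen M p x') : p x' = p x := by
  apply Nat.dvd_antisymm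
  · apply p_dvd hA
    rw [← h, ← map_pow, Sh.pow, map_one]
  · apply p_dvd hA
    apply φ.injective
    rw [map_pow, h, Sh.pow, map_one]

theorem pres_M (hA : Adm M p) (φ : Sh M p ≃* Sh M p) {x x' y y' : B}
    (h : φ (Sh.gen M p x) = Sh.gen M p x') (h' : φ (Sh.gen M p y) = Sh.gen M p y') :
    M x' y' = M x y := by
  by_cases hxy : x = y
  · subst hxy
    have h1 := gen_inj hA (h.symm.trans h')
    rw [h1, M.diagonal, M.diagonal]
  have hxy' : x' ≠ y' := by
    rintro rfl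
    exact hxy (gen_inj hA (φ.injective (h.trans h'.symm)))
  have hm : ∀ k, φ (alt (Sh.gen M p x) (Sh.gen M p y) k) = alt (Sh.gen M p x') (Sh.gen M p y') k := by
    intro k
    have h1 := map_alt φ.toMonoidHom (Sh.gen M p x) (Sh.gen M p y) k
    rw [show φ.toMonoidHom (Sh.gen M p x) = Sh.gen M p x' from h,
      show φ.toMonoidHom (Sh.gen M p y) = Sh.gen M p y' from h'] at h1
    exact h1
  have hm' : ∀ k, φ (alt (Sh.gen M p y) (Sh.gen M p x) k) = alt (Sh.gen M p y') (Sh.gen M p x') k := by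
    intro k
    have h1 := map_alt φ.toMonoidHom (Sh.gen M p y) (Sh.gen M p x) k
    rw [show φ.toMonoidHom (Sh.gen M p x) = Sh.gen M p x' from h,
      show φ.toMonoidHom (Sh.gen M p y) = Sh.gen M p y' from h'] at h1
    exact h1
  apply Nat.dvd_antisymm
  · apply M_dvd hA hxy'
    rw [← hm, ← hm', Sh.rel]
  · apply M_dvd hA hxy
    apply φ.injective
    rw [hm, hm', Sh.rel]

end rec

section main

variable {G B : Type} [Group G] {N : Subgroup G} {M : CoxeterMatrix B} {p : B → ℕ}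
  (e : Sh M p ≃* N)

/-- the partial automorphism extends to a finite matrix whose group is in the class -/
theorem core (hC : ClosedE C) (hA : Adm M p) {g n m : G} (hnm : g = n * m) {E : Set G}
    {J V : Set B} (hJV : J ⊆ V) (hV : V.Finite) (hE : ∀ x ∈ E, x ∈ PJ e J) (hn : n ∈ PJ e V)
    (s : B → B) (hs : ∀ b ∈ J, s b ∈ V)
    (hconj : ∀ b ∈ J, m * (e (Sh.gen M p b) : G) * m⁻¹ = e (Sh.gen M p (s b)))
    {T : Type} [Finite T] {M' : CoxeterMatrix T} {p' : T → ℕ} {ι : V → T} {τ : Equiv.Perm T}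
    (hA' : Adm M' p') (hι : Function.Injective ι) (hιM : ∀ x y : V, M' (ι x) (ι y) = M x y)
    (hιp : ∀ x : V, p' (ι x) = p x) (hτ : ∀ x y, M' (τ x) (τ y) = M' x y)
    (hτp : ∀ x, p' (τ x) = p' x) (hτι : ∀ x y : V, (x : B) ∈ J → s x = y → τ (ι x) = ι y)
    (hC' : C (Sh M' p')) : Realized C g E := by
  have : Finite V := hV
  -- the embeddings of the finitely generated group
  have hαinj := inc_inj hA (Subtype.val : V → B) Subtype.val_injective
  have hιM' : ∀ x y : V, pull M' ι hι x y = pull M (Subtype.val : V → B)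
    Subtype.val_injective x y := fun x y => hιM x y
  have hpull : pull M' ι hι = pull M (Subtype.val : V → B) Subtype.val_injective := by
    ext x y
    exact hιM' x y
  have hpp : p' ∘ ι = p ∘ (Subtype.val : V → B) := funext hιp
  obtain ⟨β, hβinj, hβs⟩ : ∃ β : Sh (pull M (Subtype.val : V → B) Subtype.val_injective)
      (p ∘ Subtype.val) →* Sh M' p', Function.Injective β ∧
      ∀ b : V, β (Sh.gen _ _ b) = Sh.gen M' p' (ι b) := by
    rw [← hpull, ← hpp]
    exact ⟨inc M' p' ι hι, inc_inj hA' ι hι, fun b => inc_gen _ _ _ _ _⟩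
  obtain ⟨a, ha⟩ : ∃ a : Sh (pull M (Subtype.val : V → B) Subtype.val_injective)
      (p ∘ Subtype.val) →* G,
    a = N.subtype.comp (e.toMonoidHom.comp (inc M p (Subtype.val : V → B)
      Subtype.val_injective)) := ⟨_, rfl⟩
  have hainj : Function.Injective a := by
    rw [ha]
    exact Subtype.val_injective.comp (e.injective.comp hαinj)
  have has : ∀ b : V, a (Sh.gen _ _ b) = (e (Sh.gen M p b.1) : G) := by
    intro b
    rw [ha, MonoidHom.comp_apply, MonoidHom.comp_apply, inc_gen]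
    rfl
  -- conjugation by `m`
  have key : ∀ x ∈ PJ e J, ∃ w w' : Sh (pull M (Subtype.val : V → B) Subtype.val_injective)
      (p ∘ Subtype.val), a w = x ∧ a w' = m * x * m⁻¹ ∧ β w' = shaut τ hτ hτp (β w) := by
    intro x hx
    induction hx using Subgroup.closure_induction with
    | mem x hx =>
      obtain ⟨b, hb, rfl⟩ := hx
      refine ⟨Sh.gen _ _ ⟨b, hJV hb⟩, Sh.gen _ _ ⟨s b, hs b hb⟩, has _, ?_, ?_⟩
      · rw [has]
        exact (hconj b hb).symm
      · rw [hβs, hβs, shaut_gen]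
        congr 1
        exact (hτι ⟨b, hJV hb⟩ ⟨_, hs b hb⟩ hb rfl).symm
    | one => exact ⟨1, 1, by simp, by simp, by simp⟩
    | mul x y _ _ hx hy =>
      obtain ⟨w, w', h1, h2, h3⟩ := hx
      obtain ⟨v, v', h4, h5, h6⟩ := hy
      refine ⟨w * v, w' * v', by rw [map_mul, h1, h4], ?_, by rw [map_mul, map_mul, map_mul, h3, h6]⟩
      rw [map_mul, h2, h5]
      group
    | inv x _ hx =>
      obtain ⟨w, w', h1, h2, h3⟩ := hx
      refine ⟨w⁻¹, w'⁻¹, by rw [map_inv, h1], ?_, by rw [map_inv, map_inv, map_inv, h3]⟩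
      rw [map_inv, h2]
      group
  have hES : E ⊆ (a.range : Set G) := by
    intro x hx
    obtain ⟨w, -, h1, -⟩ := key x (hE x hx)
    exact ⟨w, h1⟩
  have hnS : n ∈ a.range := by
    have hle : PJ e V ≤ a.range := by
      rw [PJ, Subgroup.closure_le]
      rintro _ ⟨b, hb, rfl⟩
      exact ⟨Sh.gen _ _ ⟨b, hb⟩, has _⟩
    exact hle hn
  have hmE : ∀ x ∈ E, m * x * m⁻¹ ∈ a.range := by
    intro x hx
    obtain ⟨w, w', h1, h2, -⟩ := key x (hE x hx)
    exact ⟨w', h2⟩
  have hsymm : ∀ (w : Sh (pull M (Subtype.val : V → B) Subtype.val_injective)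
      (p ∘ Subtype.val)) (x : G) (hx : x ∈ a.range), a w = x →
      (MonoidHom.ofInjective hainj).symm ⟨x, hx⟩ = w := by
    intro w x hx hw
    rw [MulEquiv.symm_apply_eq]
    apply Subtype.ext
    exact hw.symm
  refine realized_of a.range hnm hES hnS hmE (C_shaut τ hτ hτp hC hC')
    ((il (shaut τ hτ hτp)).comp (β.comp (MonoidHom.ofInjective hainj).symm.toMonoidHom)) ?_
    (tt (shaut τ hτ hτp)) ?_
  · exact SemidirectProduct.inl_injective.comp
      (hβinj.comp (MonoidHom.ofInjective hainj).symm.injective)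
  · intro x hx
    obtain ⟨w, w', h1, h2, h3⟩ := key x (hE x hx)
    show il _ (β ((MonoidHom.ofInjective hainj).symm _)) =
      tt _ * il _ (β ((MonoidHom.ofInjective hainj).symm _)) * (tt _)⁻¹
    rw [hsymm w x _ h1, hsymm w' _ _ h2, tt_conj, h3]

/-- the conjugation by each element maps every finite set of standard generators to standard
generators, up to the conjugation by one element of the kernel -/
def LocStd : Prop := ∀ (g : G) (F : Set B), F.Finite → ∃ n ∈ N, ∀ b ∈ F, ∃ b' : B,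
  g * (e (Sh.gen M p b) : G) * g⁻¹ = n * (e (Sh.gen M p b') : G) * n⁻¹

/-- **extensions by Artin groups and Shephard groups of any rank** -/
theorem sh_main (hC : ClosedE C) (hA : Adm M p)
    (hK : ∀ (T : Type) [Finite T] (M' : CoxeterMatrix T) (p' : T → ℕ), Adm M' p' →
      (∀ A : Set T, (∀ x ∈ A, ∀ y ∈ A, M' x y ≠ 0) →
        ∃ f : T → B, (∀ x ∈ A, ∀ y ∈ A, M (f x) (f y) = M' x y) ∧ ∀ x ∈ A, p (f x) = p' x) →
      C (Sh M' p'))
    [N.Normal] (hloc : LocStd e) (hQ : C (G ⧸ N)) : C G := by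
  refine Pool.Agent.R779.FJ.t_crit Pool.Agent.Y529.FJ.t_ext
    (Pool.Agent.Y961.FJ.t_perm Pool.Agent.Y529.FJ.t_ext) C hC G N hQ fun g E hE hEN => ?_
  obtain ⟨J, hJ, hJE⟩ := ex_supp_fin e hE hEN
  obtain ⟨n, hn, hs⟩ := hloc g J hJ
  obtain ⟨s, hs⟩ : ∃ s : B → B, ∀ b ∈ J, g * (e (Sh.gen M p b) : G) * g⁻¹ =
      n * (e (Sh.gen M p (s b)) : G) * n⁻¹ := by
    classical
    refine ⟨fun b => if h : b ∈ J then (hs b h).choose else b, fun b hb => ?_⟩
    simp only [dif_pos hb]
    exact (hs b hb).choose_spec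
  obtain ⟨J2, hJ2, hn2⟩ := ex_supp_fin e (Set.finite_singleton n) (by
    rintro _ rfl
    exact hn)
  obtain ⟨m, hm⟩ : ∃ m : G, m = n⁻¹ * g := ⟨_, rfl⟩
  have hconj : ∀ b ∈ J, m * (e (Sh.gen M p b) : G) * m⁻¹ = e (Sh.gen M p (s b)) := by
    intro b hb
    have h1 : m * (e (Sh.gen M p b) : G) * m⁻¹ = n⁻¹ * (g * (e (Sh.gen M p b) : G) * g⁻¹) * n := by
      rw [hm]
      group
    rw [h1, hs b hb]
    group
  obtain ⟨φ, hφ⟩ : ∃ φ : Sh M p ≃* Sh M p, ∀ b ∈ J, φ (Sh.gen M p b) = Sh.gen M p (s b) := by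
    refine ⟨e.trans ((MulAut.conjNormal m).trans e.symm), fun b hb => ?_⟩
    show e.symm (MulAut.conjNormal m (e (Sh.gen M p b))) = _
    rw [MulEquiv.symm_apply_eq]
    apply Subtype.ext
    rw [MulAut.conjNormal_apply]
    exact hconj b hb
  obtain ⟨V, hVe⟩ : ∃ V : Set B, V = J ∪ J2 ∪ s '' J := ⟨_, rfl⟩
  have hV : V.Finite := by
    rw [hVe]
    exact (hJ.union hJ2).union (hJ.image _)
  obtain ⟨T, _, M', p', ι, τ, hA', hι, hιM, hιp, hτ, hτp, hτι, hcl⟩ :=
    ext_part hA J V hV (by rw [hVe]; exact fun b hb => Or.inl (Or.inl hb)) s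
      (fun x hx y hy => pres_M hA φ (hφ x hx) (hφ y hy)) (fun x hx => pres_p hA φ (hφ x hx))
  exact core e hC hA (g := g) (n := n) (m := m) (by rw [hm]; group)
    (by rw [hVe]; exact fun b hb => Or.inl (Or.inl hb)) hV hJE
    (PJ_mono e (by rw [hVe]; exact fun b hb => Or.inl (Or.inr hb)) (hn2 n rfl)) s
    (fun b hb => by rw [hVe]; exact Or.inr ⟨b, hb, rfl⟩) hconj hA' hι hιM hιp hτ hτp hτι
    (hK T M' p' hA' hcl)

/-- **locally inner conjugation** -/
theorem loc_inner (hC : ClosedE C) {G : Type} [Group G] {N : Subgroup G} [N.Normal] (hN : C N)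
    (hloc : ∀ (g : G) (E : Set G), E.Finite → E ⊆ N → ∃ n ∈ N, ∀ x ∈ E, g * x * g⁻¹ = n * x * n⁻¹)
    (hQ : C (G ⧸ N)) : C G := by
  refine Pool.Agent.R779.FJ.t_crit Pool.Agent.Y529.FJ.t_ext
    (Pool.Agent.Y961.FJ.t_perm Pool.Agent.Y529.FJ.t_ext) C hC G N hQ fun g E hE hEN => ?_
  obtain ⟨n, hn, h⟩ := hloc g E hE hEN
  have hle : Subgroup.closure (E ∪ (fun x => g * x * g⁻¹) '' E) ≤ N := by
    rw [Subgroup.closure_le]
    refine Set.union_subset hEN ?_
    rintro _ ⟨x, hx, rfl⟩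
    exact Subgroup.Normal.conj_mem inferInstance x (hEN hx) g
  refine ⟨N, inferInstance, Subgroup.inclusion hle, ⟨n, hn⟩, hN, Subgroup.inclusion_injective hle, ?_⟩
  intro x y hx hy
  apply Subtype.ext
  show (y : G) = n * (x : G) * n⁻¹
  rw [hy, h _ hx]

end main

end Pool.Agent.U38.AK
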