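import Pool.Agent.K7.H87.FJ6.Lek

/-!
# Standard parabolic subgroups of finite rank embed in Shephard groups of arbitrary rank
-/

set_option autoImplicit false

namespace Pool.Agent.U38.AK

open Pool.Agent.K7.H87.FJ6
open Pool.Agent.Helper741 (alt map_alt alt_zero)

section sub

variable {B : Type} (M : CoxeterMatrix B) (p : B → ℕ)

open Classical in
/-- the generators outside `F` are killed -/
noncomputable def kf (F : Set B) : FreeGroup B →*
    Sh (pull M (Subtype.val : F → B) Subtype.val_injective) (p ∘ Subtype.val) :=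
  FreeGroup.lift fun b => if hb : b ∈ F then Sh.gen _ _ ⟨b, hb⟩ else 1

theorem kf_of {F : Set B} {b : B} (hb : b ∈ F) :
    kf M p F (FreeGroup.of b) = Sh.gen _ _ ⟨b, hb⟩ := by
  rw [kf, FreeGroup.lift_apply_of, dif_pos hb]

theorem kf_rel {F : Set B} {i j : B} (hi : i ∈ F) (hj : j ∈ F) :
    kf M p F (alt (FreeGroup.of i) (FreeGroup.of j) (M i j) *
      (alt (FreeGroup.of j) (FreeGroup.of i) (M i j))⁻¹) = 1 := by
  rw [map_mul, map_inv, map_alt, map_alt, kf_of M p hi, kf_of M p hj, mul_inv_eq_one]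
  exact Sh.rel (M := pull M (Subtype.val : F → B) Subtype.val_injective) ⟨i, hi⟩ ⟨j, hj⟩

theorem kf_pow {F : Set B} {i : B} (hi : i ∈ F) : kf M p F (FreeGroup.of i ^ p i) = 1 := by
  rw [map_pow, kf_of M p hi]
  exact Sh.pow (M := pull M (Subtype.val : F → B) Subtype.val_injective) (p := p ∘ Subtype.val)
    ⟨i, hi⟩

/-- relations need finitely many generators -/
theorem kf_fin {w : FreeGroup B} (hw : PresentedGroup.mk (rels M p) w = 1) :
    ∃ F0 : Set B, F0.Finite ∧ ∀ F : Set B, F0 ⊆ F → kf M p F w = 1 := by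
  let N : Subgroup (FreeGroup B) :=
    { carrier := {w | ∃ F0 : Set B, F0.Finite ∧ ∀ F : Set B, F0 ⊆ F → kf M p F w = 1}
      one_mem' := ⟨∅, Set.finite_empty, fun _ _ => map_one _⟩
      mul_mem' := by
        rintro u v ⟨F0, f0, h0⟩ ⟨F0', f0', h0'⟩
        refine ⟨F0 ∪ F0', f0.union f0', fun F1 h1 => ?_⟩
        rw [map_mul, h0 F1 (Set.subset_union_left.trans h1),
          h0' F1 (Set.subset_union_right.trans h1), one_mul]
      inv_mem' := by
        rintro u ⟨F0, f0, h0⟩
        refine ⟨F0, f0, fun F1 h1 => ?_⟩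
        rw [map_inv, h0 F1 h1, inv_one] }
  have hN : N.Normal := ⟨by
    rintro u ⟨F0, f0, h0⟩ g
    refine ⟨F0, f0, fun F1 h1 => ?_⟩
    rw [map_mul, map_mul, h0 F1 h1, mul_one, ← map_mul, mul_inv_cancel, map_one]⟩
  have hrel : Subgroup.normalClosure (rels M p) ≤ N := by
    refine Subgroup.normalClosure_le_normal ?_
    rintro r (⟨s, t, rfl⟩ | ⟨s, rfl⟩)
    · exact ⟨{s, t}, Set.toFinite _, fun F1 h1 => kf_rel M p (h1 (by simp)) (h1 (by simp))⟩
    · exact ⟨{s}, Set.toFinite _, fun F1 h1 => kf_pow M p (h1 (by simp))⟩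
  exact hrel ((QuotientGroup.eq_one_iff _).1 hw)

end sub

/-- **standard parabolic subgroups of finite rank** -/
theorem inc_inj {A B : Type} [Finite A] {M : CoxeterMatrix B} {p : B → ℕ} (h : Adm M p)
    (ι : A → B) (hι : Function.Injective ι) : Function.Injective (inc M p ι hι) := by
  rw [injective_iff_map_eq_one]
  intro a ha
  obtain ⟨w, rfl⟩ := PresentedGroup.mk_surjective _ a
  have h1 : ∀ w : FreeGroup A, inc M p ι hι (PresentedGroup.mk _ w) =
      PresentedGroup.mk (rels M p) (FreeGroup.map ι w) := by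
    intro w
    have : (inc M p ι hι).comp (PresentedGroup.mk (rels (pull M ι hι) (p ∘ ι))) =
        (PresentedGroup.mk (rels M p)).comp (FreeGroup.map ι) := by
      refine FreeGroup.ext_hom _ _ fun b => ?_
      rw [MonoidHom.comp_apply, MonoidHom.comp_apply, FreeGroup.map.of]
      exact inc_gen M p ι hι b
    exact DFunLike.congr_fun this w
  rw [h1] at ha
  obtain ⟨F0, hF0, hF⟩ := kf_fin M p ha
  obtain ⟨F, hFe⟩ : ∃ F : Set B, F = F0 ∪ Set.range ι := ⟨_, rfl⟩
  have hfin : Finite F := by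
    rw [hFe]
    exact hF0.union (Set.finite_range ι)
  have hιF : ∀ a, ι a ∈ F := fun a => by rw [hFe]; exact Or.inr ⟨a, rfl⟩
  have h2 := hF F (by rw [hFe]; exact Set.subset_union_left)
  let κ : A → F := fun a => ⟨ι a, hιF a⟩
  have hκ : Function.Injective κ := fun a b hab => hι (congrArg Subtype.val hab)
  have h3 : ∀ w : FreeGroup A, inc (pull M (Subtype.val : F → B) Subtype.val_injective)
      (p ∘ Subtype.val) κ hκ (PresentedGroup.mk (rels (pull (pull M (Subtype.val : F → B)
        Subtype.val_injective) κ hκ) ((p ∘ Subtype.val) ∘ κ)) w) =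
        kf M p F (FreeGroup.map ι w) := by
    intro w
    have : (inc (pull M (Subtype.val : F → B) Subtype.val_injective)
        (p ∘ Subtype.val) κ hκ).comp (PresentedGroup.mk (rels (pull (pull M (Subtype.val : F → B)
        Subtype.val_injective) κ hκ) ((p ∘ Subtype.val) ∘ κ))) =
        (kf M p F).comp (FreeGroup.map ι) := by
      refine FreeGroup.ext_hom _ _ fun b => ?_
      rw [MonoidHom.comp_apply, MonoidHom.comp_apply, FreeGroup.map.of, kf_of M p (hιF b)]
      exact inc_gen _ _ κ hκ b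
    exact DFunLike.congr_fun this w
  rw [← h3] at h2
  exact (injective_iff_map_eq_one _).1
    (inc_injective (h.pull (Subtype.val : F → B) Subtype.val_injective) κ hκ) _ h2

end Pool.Agent.U38.AK
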