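import Pool.Agent.U38.LR.Final
import Pool.Agent.U38.AK.Sub

/-!
# Wrapping up a Coxeter matrix along a permutation
-/

set_option autoImplicit false

namespace Pool.Agent.U38.AK

open Pool.Agent.U38.LR (St exists_time zero_of_lt)
open Pool.Agent.K7.H87.FJ6

variable {V : Type} {σ : Equiv.Perm V} (S : St σ) (M : CoxeterMatrix V) (p : V → ℕ)

/-- `v` and `w` are lifts of `c` and `d` in a common window -/
def Lft (c d : S.Vm) (v w : V) : Prop := ∃ i : ℤ, v ∈ S.W i ∧ w ∈ S.W i ∧ S.q v = c ∧ S.q w = d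

variable {S}

theorem Lft.symm {c d : S.Vm} {v w : V} (h : Lft S c d v w) : Lft S d c w v := by
  obtain ⟨i, h1, h2, h3, h4⟩ := h
  exact ⟨i, h2, h1, h4, h3⟩

theorem Lft.eq {c d : S.Vm} {v w : V} (h : Lft S c d v w) (hcd : c = d) : v = w := by
  obtain ⟨i, h1, h2, h3, h4⟩ := h
  exact S.inj_W h1 h2 (h3.trans (hcd.trans h4.symm))

theorem Lft.shift {c d : S.Vm} {v w : V} (h : Lft S c d v w) (j : ℤ) :
    Lft S (S.q ((σ ^ j) v)) (S.q ((σ ^ j) w)) ((σ ^ j) v) ((σ ^ j) w) := by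
  obtain ⟨i, h1, h2, -, -⟩ := h
  exact ⟨i + j, (S.W_shift j).2 h1, (S.W_shift j).2 h2, rfl, rfl⟩

open Classical in
theorem Lft.uniq {c d : S.Vm} {v w v' w' : V} (h : Lft S c d v w) (h' : Lft S c d v' w') :
    ∃ k : ℤ, (σ ^ k) v = v' ∧ (σ ^ k) w = w' := by
  obtain ⟨i, h1, h2, h3, h4⟩ := h
  obtain ⟨i', h1', h2', h3', h4'⟩ := h'
  obtain ⟨j, hj⟩ := S.one_shift (A := {c, d}) (l := fun x => if x = c then v' else w') (i0 := i')
    (by
      rintro x hx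
      by_cases hxc : x = c
      · simp only [if_pos hxc]
        rw [h3', hxc]
      · simp only [if_neg hxc]
        rw [h4']
        exact (hx.resolve_left hxc).symm)
    (by
      rintro x hx
      by_cases hxc : x = c
      · simp only [if_pos hxc]
        exact h1'
      · simp only [if_neg hxc]
        exact h2') i
  refine ⟨S.m * j, ?_, ?_⟩
  · have h5 := hj v h1 (by rw [h3]; exact Or.inl rfl)
    rw [h5, h3, if_pos rfl]
  · have h5 := hj w h2 (by rw [h4]; exact Or.inr rfl)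
    rw [h5, h4]
    by_cases hdc : d = c
    · rw [if_pos hdc]
      exact S.inj_W h1' h2' (by rw [h3', h4', hdc])
    · rw [if_neg hdc]

variable (S)

open Classical in
/-- the labels -/
noncomputable def lab (c d : S.Vm) : ℕ :=
  if c = d then 1 else if h : ∃ x : V × V, Lft S c d x.1 x.2 then M h.choose.1 h.choose.2 else 0

variable {M p}

theorem lab_self (c : S.Vm) : lab S M c c = 1 := by
  rw [lab, if_pos rfl]

variable {S}

theorem lab_of (hM : ∀ (j : ℤ) v w, M ((σ ^ j) v) ((σ ^ j) w) = M v w) {c d : S.Vm} {v w : V}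
    (h : Lft S c d v w) : lab S M c d = M v w := by
  by_cases hcd : c = d
  · rw [lab, if_pos hcd, h.eq hcd, M.diagonal]
  · have hex : ∃ x : V × V, Lft S c d x.1 x.2 := ⟨(v, w), h⟩
    rw [lab, if_neg hcd, dif_pos hex]
    obtain ⟨k, h1, h2⟩ := (hex.choose_spec).uniq h
    rw [← hM k, h1, h2]

theorem lab_lift {c d : S.Vm} (hcd : c ≠ d) (h : lab S M c d ≠ 0) : ∃ v w, Lft S c d v w := by
  by_contra hne
  apply h
  rw [lab, if_neg hcd, dif_neg]
  rintro ⟨x, hx⟩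
  exact hne ⟨x.1, x.2, hx⟩

theorem lab_zero {c d : S.Vm} (hcd : c ≠ d) (h : ¬ ∃ v w, Lft S c d v w) : lab S M c d = 0 := by
  by_contra hne
  exact h (lab_lift hcd hne)

theorem lab_symm (hM : ∀ (j : ℤ) v w, M ((σ ^ j) v) ((σ ^ j) w) = M v w) (c d : S.Vm) :
    lab S M c d = lab S M d c := by
  by_cases hcd : c = d
  · rw [hcd]
  · by_cases hex : ∃ v w, Lft S c d v w
    · obtain ⟨v, w, h⟩ := hex
      rw [lab_of hM h, lab_of hM h.symm, M.symmetric]
    · rw [lab_zero hcd hex, lab_zero (Ne.symm hcd) (fun ⟨v, w, h⟩ => hex ⟨w, v, h.symm⟩)]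

theorem lab_off (hM : ∀ (j : ℤ) v w, M ((σ ^ j) v) ((σ ^ j) w) = M v w) {c d : S.Vm}
    (hcd : c ≠ d) : lab S M c d ≠ 1 := by
  by_cases hex : ∃ v w, Lft S c d v w
  · obtain ⟨v, w, h⟩ := hex
    rw [lab_of hM h]
    refine M.off_diagonal v w fun hvw => hcd ?_
    obtain ⟨i, -, -, h3, h4⟩ := h
    rw [← h3, ← h4, hvw]
  · rw [lab_zero hcd hex]
    exact zero_ne_one

theorem lab_sb (hM : ∀ (j : ℤ) v w, M ((σ ^ j) v) ((σ ^ j) w) = M v w) (c d : S.Vm) :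
    lab S M (S.sb c) (S.sb d) = lab S M c d := by
  have hq : ∀ v, S.q ((σ ^ (1 : ℤ)) v) = S.sb (S.q v) := fun v => by
    rw [S.sb_q, zpow_one]
  have hq' : ∀ v, S.q ((σ ^ (-1 : ℤ)) v) = S.sb.symm (S.q v) := fun v => by
    rw [Equiv.eq_symm_apply, S.sb_q, ← Equiv.Perm.mul_apply, ← zpow_one_add]
    norm_num
  by_cases hcd : c = d
  · rw [hcd, lab_self, lab_self]
  · by_cases hex : ∃ v w, Lft S c d v w
    · obtain ⟨v, w, h⟩ := hex
      have h1 := h.shift 1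
      obtain ⟨i, -, -, h3, h4⟩ := id h
      rw [hq, hq, h3, h4] at h1
      rw [lab_of hM h, lab_of hM h1, hM]
    · rw [lab_zero hcd hex, lab_zero (fun h => hcd (S.sb.injective h))]
      rintro ⟨v, w, h⟩
      have h1 := h.shift (-1)
      obtain ⟨i, -, -, h3, h4⟩ := id h
      rw [hq', hq', h3, h4, Equiv.symm_apply_apply, Equiv.symm_apply_apply] at h1
      exact hex ⟨_, _, h1⟩

variable (S)

/-- the classes of the relevant vertices -/
abbrev Tm : Type := {c : S.Vm // c ∈ S.q '' S.U}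

/-- **the wrapped matrix** -/
noncomputable def Mw (hM : ∀ (j : ℤ) v w, M ((σ ^ j) v) ((σ ^ j) w) = M v w) :
    CoxeterMatrix (Tm S) where
  M := Matrix.of fun c d => lab S M c.1 d.1
  isSymm := by
    ext c d
    simp only [Matrix.transpose_apply, Matrix.of_apply]
    exact lab_symm hM _ _
  diagonal c := lab_self S c.1
  off_diagonal c d h := lab_off hM fun h' => h (Subtype.ext h')

theorem Mw_apply (hM : ∀ (j : ℤ) v w, M ((σ ^ j) v) ((σ ^ j) w) = M v w) (c d : Tm S) :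
    Mw S hM c d = lab S M c.1 d.1 := rfl

/-- the exponents -/
noncomputable def pw (p : V → ℕ) (c : Tm S) : ℕ := p c.1.out

theorem pw_q (hp : ∀ (j : ℤ) v, p ((σ ^ j) v) = p v) {v : V} (hv : S.q v ∈ S.q '' S.U) :
    pw S p ⟨S.q v, hv⟩ = p v := by
  obtain ⟨j, hj⟩ := S.q_eq.1 (show S.q (S.q v).out = S.q v from Quotient.out_eq _)
  have h1 := hp (S.m * j) (S.q v).out
  rw [hj] at h1
  exact h1.symm

/-- the permutation of the classes -/
noncomputable def tw : Equiv.Perm (Tm S) :=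
  S.sb.subtypePerm (fun c => by
    constructor
    · rintro ⟨v, hv, hvc⟩
      refine ⟨(σ ^ (-1 : ℤ)) v, (S.hU v (-1)).2 hv, ?_⟩
      apply S.sb.injective
      rw [S.sb_q, ← hvc, ← Equiv.Perm.mul_apply, ← zpow_one_add]
      norm_num
    · rintro ⟨v, hv, rfl⟩
      refine ⟨σ v, ?_, (S.sb_q v).symm⟩
      have := (S.hU v 1).2 hv
      rwa [zpow_one] at this)

theorem tw_val (c : Tm S) : (tw S c).1 = S.sb c.1 := rfl

theorem Mw_tw (hM : ∀ (j : ℤ) v w, M ((σ ^ j) v) ((σ ^ j) w) = M v w) (c d : Tm S) :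
    Mw S hM (tw S c) (tw S d) = Mw S hM c d := by
  rw [Mw_apply, Mw_apply, tw_val, tw_val, lab_sb hM]

theorem pw_tw (hp : ∀ (j : ℤ) v, p ((σ ^ j) v) = p v) (c : Tm S) : pw S p (tw S c) = pw S p c := by
  obtain ⟨c, hc⟩ := c
  obtain ⟨v, hv, hvc⟩ := id hc
  subst hvc
  have h0 : S.q (σ v) ∈ S.q '' S.U := by
    refine ⟨σ v, ?_, rfl⟩
    have := (S.hU v 1).2 hv
    rwa [zpow_one] at this
  have h1 : tw S ⟨S.q v, hc⟩ = ⟨S.q (σ v), h0⟩ := Subtype.ext (S.sb_q v)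
  have h2 := pw_q S hp hc
  have h3 := pw_q S hp h0
  have := hp 1 v
  rw [zpow_one] at this
  rw [h1, h2, h3, this]

theorem adm_w (hM : ∀ (j : ℤ) v w, M ((σ ^ j) v) ((σ ^ j) w) = M v w)
    (hp : ∀ (j : ℤ) v, p ((σ ^ j) v) = p v) (hA : Adm M p) : Adm (Mw S hM) (pw S p) := by
  refine ⟨fun c => hA.even _, fun c d hcd => ?_⟩
  by_cases hne : c = d
  · rw [hne]
  · rw [Mw_apply] at hcd
    have hne' : c.1 ≠ d.1 := fun h => hne (Subtype.ext h)
    obtain ⟨v, w, h⟩ := lab_lift (M := M) hne' (fun h0 => by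
      rw [h0] at hcd
      exact absurd hcd (by decide))
    rw [lab_of hM h] at hcd
    obtain ⟨i, hv, hw, h3, h4⟩ := h
    obtain ⟨c, hc⟩ := c
    obtain ⟨d, hd⟩ := d
    subst h3
    subst h4
    rw [pw_q S hp, pw_q S hp]
    exact hA.odd _ _ hcd

/-! ### Cliques -/

/-- two points of a window -/
theorem near {i : ℤ} {v v' : V} (h : v ∈ S.W i) (h' : v' ∈ S.W i) :
    v ∈ S.U ∧ v' ∈ S.U ∧ (¬ S.fin v → ¬ S.fin v' → |S.t v - S.t v'| ≤ S.D) := by
  refine ⟨h.1, h'.1, fun hf hf' => ?_⟩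
  have h1 := h.2.resolve_left hf
  have h2 := h'.2.resolve_left hf'
  rw [abs_le]
  constructor <;> linarith

/-- sections -/
theorem exists_sect {A : Set S.Vm} (hA : A ⊆ S.q '' S.U)
    (hcl : ∀ c ∈ A, ∀ d ∈ A, c ≠ d → ∃ v w, Lft S c d v w) :
    ∃ (l : S.Vm → V) (τ : ℤ), ∀ c ∈ A, S.q (l c) = c ∧ l c ∈ S.U ∧
      (¬ S.fin (l c) → |S.t (l c) - τ| ≤ S.D) := by
  classical
  rcases isEmpty_or_nonempty V with hV | hV
  · exact ⟨fun c => c.out, 0, fun c => hV.elim c.out⟩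
  by_cases hex : ∃ c0 ∈ A, ∃ v0, S.q v0 = c0 ∧ ¬ S.fin v0
  · obtain ⟨c0, hc0, v0, hv0, hf⟩ := hex
    have hv0U : v0 ∈ S.U := by
      obtain ⟨w, hw, hwc⟩ := hA hc0
      exact (S.q_U (hwc.trans hv0.symm)).1 hw
    have h1 : ∀ c ∈ A, ∃ v, S.q v = c ∧ v ∈ S.U ∧ (¬ S.fin v → |S.t v - S.t v0| ≤ S.D) := by
      intro c hc
      by_cases hcc : c0 = c
      · refine ⟨v0, hv0.trans hcc, hv0U, fun _ => ?_⟩
        rw [sub_self, abs_zero]
        exact S.hD
      · obtain ⟨v, v', i, hv, hv', hvc, hvc'⟩ := hcl c0 hc0 c hc hcc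
        obtain ⟨j, hj⟩ := S.q_eq.1 (hvc.trans hv0.symm)
        have h2 : (σ ^ (S.m * j)) v ∈ S.W (i + S.m * j) := (S.W_shift _).2 hv
        have h3 : (σ ^ (S.m * j)) v' ∈ S.W (i + S.m * j) := (S.W_shift _).2 hv'
        rw [hj] at h2
        obtain ⟨-, h4, h5⟩ := near S h2 h3
        refine ⟨(σ ^ (S.m * j)) v', ?_, h4, fun hf' => ?_⟩
        · rw [← hvc']
          exact (S.q_eq.2 ⟨j, rfl⟩).symm
        · rw [abs_sub_comm]
          exact h5 hf hf'
    choose! l hl using h1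
    exact ⟨l, S.t v0, hl⟩
  · push Not at hex
    have h1 : ∀ c ∈ A, ∃ v, v ∈ S.U ∧ S.q v = c := fun c hc => by
      obtain ⟨w, hw, hwc⟩ := hA hc
      exact ⟨w, hw, hwc⟩
    choose! l hl using h1
    refine ⟨l, 0, fun c hc => ⟨(hl c hc).2, (hl c hc).1, fun h => ?_⟩⟩
    exact absurd (hex c hc _ (hl c hc).2) h

/-- the values of a section on a clique are near -/
theorem sect_near {A : Set S.Vm}
    (hcl : ∀ c ∈ A, ∀ d ∈ A, c ≠ d → ∃ v w, Lft S c d v w) {l : S.Vm → V} {τ : ℤ}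
    (hl : ∀ c ∈ A, S.q (l c) = c ∧ l c ∈ S.U ∧ (¬ S.fin (l c) → |S.t (l c) - τ| ≤ S.D))
    {c c' : S.Vm} (hc : c ∈ A) (hc' : c' ∈ A) (hne : c ≠ c') :
    ¬ S.fin (l c) → ¬ S.fin (l c') → |S.t (l c) - S.t (l c')| ≤ S.D := by
  obtain ⟨v, v', i, hv, hv', hvc, hvc'⟩ := hcl c hc c' hc' hne
  obtain ⟨j, hj⟩ := S.q_eq.1 (hvc.trans (hl c hc).1.symm)
  obtain ⟨j', hj'⟩ := S.q_eq.1 (hvc'.trans (hl c' hc').1.symm)
  -- one translation
  obtain ⟨k, hk, hk'⟩ : ∃ k : ℤ, (σ ^ (S.m * k)) v = l c ∧ (σ ^ (S.m * k)) v' = l c' := by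
    by_cases hf : S.fin v
    · refine ⟨j', ?_, hj'⟩
      rw [← hj, S.fix hv.1 hf, S.fix hv.1 hf]
    · by_cases hf' : S.fin v'
      · refine ⟨j, hj, ?_⟩
        rw [← hj', S.fix hv'.1 hf', S.fix hv'.1 hf']
      · have e1 := S.ht v hf (S.m * j)
        have e2 := S.ht v' hf' (S.m * j')
        rw [hj] at e1
        rw [hj'] at e2
        have g1 : ¬ S.fin (l c) := by rw [← hj, S.hfin]; exact hf
        have g2 : ¬ S.fin (l c') := by rw [← hj', S.hfin]; exact hf'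
        have h1 := abs_le.1 ((hl c hc).2.2 g1)
        have h2 := abs_le.1 ((hl c' hc').2.2 g2)
        have h3 := abs_le.1 ((near S hv hv').2.2 hf hf')
        have h4 := S.hm
        have h5 : j - j' = 0 := by
          refine zero_of_lt (m := S.m) ?_
          rw [mul_sub, abs_lt]
          constructor <;> linarith
        have h6 : j = j' := by omega
        exact ⟨j, hj, by rw [h6, hj']⟩
  have h2 : (σ ^ (S.m * k)) v ∈ S.W (i + S.m * k) := (S.W_shift _).2 hv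
  have h3 : (σ ^ (S.m * k)) v' ∈ S.W (i + S.m * k) := (S.W_shift _).2 hv'
  rw [hk] at h2
  rw [hk'] at h3
  exact (near S h2 h3).2.2

/-- **finite cliques of the wrapped matrix lift to one window** -/
theorem clique_lft {A : Set S.Vm} (hfA : A.Finite) (hA : A ⊆ S.q '' S.U)
    (hcl : ∀ c ∈ A, ∀ d ∈ A, c ≠ d → ∃ v w, Lft S c d v w) :
    ∃ (l : S.Vm → V) (i0 : ℤ), (∀ c ∈ A, S.q (l c) = c) ∧ (∀ c ∈ A, l c ∈ S.W i0) := by
  obtain ⟨l, τ, hl⟩ := exists_sect S hA hcl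
  by_cases hex : {c | c ∈ A ∧ ¬ S.fin (l c)}.Nonempty
  · obtain ⟨c0, hc0, hmin⟩ := Set.exists_min_image {c | c ∈ A ∧ ¬ S.fin (l c)}
      (fun c => S.t (l c)) (hfA.subset fun c hc => hc.1) hex
    refine ⟨l, S.t (l c0), fun c hc => (hl c hc).1, fun c hc => ⟨(hl c hc).2.1, ?_⟩⟩
    by_cases hf : S.fin (l c)
    · exact Or.inl hf
    · refine Or.inr ⟨hmin c ⟨hc, hf⟩, ?_⟩
      by_cases hcc : c = c0
      · rw [hcc]
        linarith [S.hD]
      · have h1 := abs_le.1 (sect_near S hcl hl hc hc0.1 hcc hf hc0.2)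
        linarith [h1.2]
  · refine ⟨l, 0, fun c hc => (hl c hc).1, fun c hc => ⟨(hl c hc).2.1, ?_⟩⟩
    left
    by_contra hf
    exact hex ⟨c, hc, hf⟩

/-! ### Existence -/

/-- finitely many classes -/
theorem fin_classes {F : Set V} (hF : F.Finite)
    (hU : ∀ v ∈ S.U, ∃ w ∈ F, ∃ j : ℤ, (σ ^ j) w = v) : (S.q '' S.U).Finite := by
  have hm0 : 0 < S.m := by linarith [S.hm, S.hD]
  have hfin2 : (Set.image2 (fun (w : V) (r : ℤ) => (σ ^ r) w) F (Set.Ico (0 : ℤ) S.m)).Finite :=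
    Set.Finite.image2 _ hF (Set.finite_Ico _ _)
  refine (hfin2.image S.q).subset ?_
  rintro _ ⟨v, hv, rfl⟩
  obtain ⟨w, hw, j, rfl⟩ := hU v hv
  refine ⟨(σ ^ (j % S.m)) w, ⟨w, hw, _, ⟨Int.emod_nonneg _ hm0.ne',
    Int.emod_lt_of_pos _ hm0⟩, rfl⟩, ?_⟩
  refine S.q_eq.2 ⟨j / S.m, ?_⟩
  rw [← Equiv.Perm.mul_apply, ← zpow_add, Int.mul_ediv_add_emod]

/-- existence of the data -/
theorem exists_St' (σ : Equiv.Perm V) (F : Set V) (hF : F.Finite) :
    ∃ (S : St σ) (i0 : ℤ), F ⊆ S.W i0 ∧ ∀ v ∈ S.U, ∃ w ∈ F, ∃ j : ℤ, (σ ^ j) w = v := by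
  classical
  obtain ⟨t, ht⟩ := exists_time σ
  -- a bound of the times
  obtain ⟨B, hB0, hB⟩ : ∃ B : ℤ, 0 ≤ B ∧ ∀ v ∈ F, |t v| ≤ B := by
    induction F, hF using Set.Finite.induction_on with
    | empty => exact ⟨0, le_rfl, fun v hv => absurd hv (Set.notMem_empty v)⟩
    | insert _ _ ih =>
      rename_i w F _ _
      obtain ⟨B, hB0, hB⟩ := ih
      refine ⟨max B |t w|, le_max_of_le_left hB0, ?_⟩
      rintro v (rfl | hv)
      · exact le_max_right _ _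
      · exact (hB v hv).trans (le_max_left _ _)
  -- a common period
  obtain ⟨M, hM0, hM⟩ : ∃ M : ℕ, 0 < M ∧ ∀ v ∈ F, (∃ n : ℕ, 0 < n ∧ (σ ^ n) v = v) →
      (σ ^ M) v = v := by
    induction F, hF using Set.Finite.induction_on with
    | empty => exact ⟨1, one_pos, fun v hv => absurd hv (Set.notMem_empty v)⟩
    | insert _ _ ih =>
      rename_i w F _ _
      obtain ⟨M, hM0, hM⟩ := ih (fun v hv => hB v (Or.inr hv))
      by_cases hw : ∃ n : ℕ, 0 < n ∧ (σ ^ n) w = w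
      · obtain ⟨n, hn, hnw⟩ := hw
        refine ⟨M * n, Nat.mul_pos hM0 hn, ?_⟩
        rintro v (rfl | hv) hv'
        · rw [mul_comm, pow_mul]
          exact Equiv.Perm.pow_apply_eq_self_of_apply_eq_self hnw M
        · rw [pow_mul]
          exact Equiv.Perm.pow_apply_eq_self_of_apply_eq_self (hM v hv hv') n
      · refine ⟨M, hM0, ?_⟩
        rintro v (rfl | hv) hv'
        · exact absurd hv' hw
        · exact hM v hv hv'
  have hcomm : ∀ (v : V) (a b : ℤ), (σ ^ a) ((σ ^ b) v) = (σ ^ b) ((σ ^ a) v) := by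
    intro v a b
    rw [← Equiv.Perm.mul_apply, ← Equiv.Perm.mul_apply, ← zpow_add, ← zpow_add, add_comm]
  have hfinj : ∀ (v : V) (j : ℤ), (∃ n : ℕ, 0 < n ∧ (σ ^ n) v = v) →
      ∃ n : ℕ, 0 < n ∧ (σ ^ n) ((σ ^ j) v) = (σ ^ j) v := by
    rintro v j ⟨n, hn, h⟩
    refine ⟨n, hn, ?_⟩
    rw [← zpow_natCast, hcomm, zpow_natCast, h]
  refine ⟨{
    fin := fun v => ∃ n : ℕ, 0 < n ∧ (σ ^ n) v = v
    t := t
    U := {v | ∃ w ∈ F, ∃ j : ℤ, (σ ^ j) w = v}
    D := 2 * B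
    m := M * (6 * B + 1)
    hfin := ?_
    ht := ht
    hU := ?_
    hper := ?_
    hm := ?_
    hD := by linarith }, -B, ?_, ?_⟩
  · intro v j
    constructor
    · intro h
      have h1 := hfinj _ (-j) h
      rwa [← Equiv.Perm.mul_apply, ← zpow_add, neg_add_cancel, zpow_zero,
        Equiv.Perm.one_apply] at h1
    · exact hfinj v j
  · intro v j
    constructor
    · rintro ⟨w, hw, k, hk⟩
      refine ⟨w, hw, -j + k, ?_⟩
      rw [zpow_add, Equiv.Perm.mul_apply, hk, ← Equiv.Perm.mul_apply, ← zpow_add, neg_add_cancel,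
        zpow_zero, Equiv.Perm.one_apply]
    · rintro ⟨w, hw, k, hk⟩
      refine ⟨w, hw, j + k, ?_⟩
      rw [zpow_add, Equiv.Perm.mul_apply, hk]
  · rintro v ⟨w, hw, j, rfl⟩ hf
    have h1 := hfinj _ (-j) hf
    rw [← Equiv.Perm.mul_apply, ← zpow_add, neg_add_cancel, zpow_zero, Equiv.Perm.one_apply] at h1
    have h2 := hM w hw h1
    rw [hcomm]
    congr 1
    rw [zpow_mul]
    refine Equiv.Perm.zpow_apply_eq_self_of_apply_eq_self ?_ _
    rw [zpow_natCast, h2]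
  · have h1 : (1 : ℤ) ≤ M := by exact_mod_cast hM0
    nlinarith
  · intro v hv
    refine ⟨⟨v, hv, 0, by simp⟩, Or.inr ?_⟩
    have h1 := abs_le.1 (hB v hv)
    show -B ≤ t v ∧ t v ≤ -B + 2 * B
    exact ⟨h1.1, by linarith [h1.2]⟩
  · intro v hv
    exact hv

end Pool.Agent.U38.AK
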