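import Pool.Agent.N77.CX.Main
import Pool.Agent.U38.AK.Wm

/-!
# Extensions by Artin groups and Shephard groups of arbitrary rank
-/

set_option autoImplicit false

namespace Pool.Agent.U38.AK

open Pool.Agent.Y110.FJ
open Pool.Agent.Y462.SS (Closed)
open Pool.Agent.N77.GP (MT il tt mt_pow mt_one tt_conj)
open Pool.Agent.N77.CX (realized_of)
open Pool.Agent.U38.LR (St)
open Pool.Agent.K7.H87.FJ6

variable {C : ∀ (G : Type) [Group G], Prop}

section auto

variable {T : Type} {M : CoxeterMatrix T} {p : T → ℕ}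

/-- the homomorphism given by a permutation of the generators -/
def shh (τ : Equiv.Perm T) (hτ : ∀ x y, M (τ x) (τ y) = M x y) (hp : ∀ x, p (τ x) = p x) :
    Sh M p →* Sh M p :=
  Sh.lift (fun x => Sh.gen M p (τ x)) (fun i j => by rw [← hτ]; exact Sh.rel _ _)
      (fun i => by rw [← hp]; exact Sh.pow _)

theorem shh_gen (τ : Equiv.Perm T) (hτ : ∀ x y, M (τ x) (τ y) = M x y) (hp : ∀ x, p (τ x) = p x)
    (i : T) : shh τ hτ hp (Sh.gen M p i) = Sh.gen M p (τ i) :=
  Sh.lift_gen _ _ _ _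

theorem symm_m (τ : Equiv.Perm T) (hτ : ∀ x y, M (τ x) (τ y) = M x y) (x y : T) :
    M (τ.symm x) (τ.symm y) = M x y := by
  have h := hτ (τ.symm x) (τ.symm y)
  rw [τ.apply_symm_apply, τ.apply_symm_apply] at h
  exact h.symm

theorem symm_p (τ : Equiv.Perm T) (hp : ∀ x, p (τ x) = p x) (x : T) : p (τ.symm x) = p x := by
  have h := hp (τ.symm x)
  rw [τ.apply_symm_apply] at h
  exact h.symm

/-- the automorphism given by a permutation of the generators -/
def shaut (τ : Equiv.Perm T) (hτ : ∀ x y, M (τ x) (τ y) = M x y) (hp : ∀ x, p (τ x) = p x) :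
    MulAut (Sh M p) :=
  MonoidHom.toMulEquiv (shh τ hτ hp) (shh τ.symm (symm_m τ hτ) (symm_p τ hp))
    (Sh.hom_ext fun i => by
      rw [MonoidHom.comp_apply, shh_gen, shh_gen, τ.symm_apply_apply]
      rfl)
    (Sh.hom_ext fun i => by
      rw [MonoidHom.comp_apply, shh_gen, shh_gen, τ.apply_symm_apply]
      rfl)

variable (τ : Equiv.Perm T) (hτ : ∀ x y, M (τ x) (τ y) = M x y) (hp : ∀ x, p (τ x) = p x)

theorem shaut_gen (i : T) : shaut τ hτ hp (Sh.gen M p i) = Sh.gen M p (τ i) :=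
  shh_gen τ hτ hp i

theorem shaut_pow_gen (k : ℕ) (i : T) :
    (shaut τ hτ hp ^ k) (Sh.gen M p i) = Sh.gen M p ((τ ^ k) i) := by
  induction k with
  | zero => simp
  | succ k ih =>
    rw [pow_succ', MulAut.mul_apply, ih, shaut_gen, pow_succ']
    rfl

theorem shaut_pow (k : ℕ) (hk : τ ^ k = 1) : shaut τ hτ hp ^ k = 1 := by
  apply MulEquiv.toMonoidHom_injective
  apply Sh.hom_ext
  intro i
  have h := shaut_pow_gen τ hτ hp k i
  rw [hk] at h
  exact h

theorem C_shaut (hC : ClosedE C) [Finite T] (hW : C (Sh M p)) :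
    C (MT (Sh M p) (shaut τ hτ hp)) := by
  have hfin : IsOfFinOrder τ := isOfFinOrder_of_finite τ
  refine mt_pow hC.base (k := orderOf τ) hfin.orderOf_pos ?_
  rw [shaut_pow τ hτ hp _ (pow_orderOf_eq_one τ)]
  exact mt_one hC.base hW

end auto

/-- **extension of a partial automorphism** of a finite part of a Coxeter matrix with exponents, given by
an automorphism of the whole matrix: the cliques of the finite matrix come from cliques -/
theorem ext_partial {B : Type} {M : CoxeterMatrix B} {p : B → ℕ} (hA : Adm M p)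
    (σ : Equiv.Perm B) (hσ : ∀ v w, M (σ v) (σ w) = M v w) (hpσ : ∀ v, p (σ v) = p v)
    (F : Set B) (hF : F.Finite) :
    ∃ (T : Type) (_ : Finite T) (M' : CoxeterMatrix T) (p' : T → ℕ) (ι : F → T)
      (τ : Equiv.Perm T), Adm M' p' ∧ Function.Injective ι ∧
      (∀ x y : F, M' (ι x) (ι y) = M x y) ∧ (∀ x : F, p' (ι x) = p x) ∧
      (∀ x y, M' (τ x) (τ y) = M' x y) ∧ (∀ x, p' (τ x) = p' x) ∧
      (∀ x y : F, σ x = y → τ (ι x) = ι y) ∧
      ∀ A : Set T, (∀ x ∈ A, ∀ y ∈ A, M' x y ≠ 0) →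
        ∃ f : T → B, (∀ x ∈ A, ∀ y ∈ A, M (f x) (f y) = M' x y) ∧ ∀ x ∈ A, p (f x) = p' x := by
  classical
  have hM : ∀ (j : ℤ) v w, M ((σ ^ j) v) ((σ ^ j) w) = M v w := by
    intro j
    induction j using Int.induction_on with
    | zero => intro v w; simp
    | succ j ih =>
      intro v w
      rw [add_comm, zpow_add, zpow_one, Equiv.Perm.mul_apply, Equiv.Perm.mul_apply, hσ, ih]
    | pred j ih =>
      intro v w
      have e : ∀ v, σ ((σ ^ (-(j : ℤ) - 1)) v) = (σ ^ (-(j : ℤ))) v := by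
        intro v
        rw [← Equiv.Perm.mul_apply, ← zpow_one_add]
        congr 2
        ring
      rw [← hσ, e, e, ih]
  have hp : ∀ (j : ℤ) v, p ((σ ^ j) v) = p v := by
    intro j
    induction j using Int.induction_on with
    | zero => intro v; simp
    | succ j ih =>
      intro v
      rw [add_comm, zpow_add, zpow_one, Equiv.Perm.mul_apply, hpσ, ih]
    | pred j ih =>
      intro v
      have e : σ ((σ ^ (-(j : ℤ) - 1)) v) = (σ ^ (-(j : ℤ))) v := by
        rw [← Equiv.Perm.mul_apply, ← zpow_one_add]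
        congr 2
        ring
      rw [← hpσ, e, ih]
  obtain ⟨S, i0, hFW, hU⟩ := exists_St' σ F hF
  have hfin := fin_classes S hF hU
  have hι : ∀ x : F, S.q x ∈ S.q '' S.U := fun x => ⟨x, (hFW x.2).1, rfl⟩
  refine ⟨Tm S, hfin, Mw S hM, pw S p, fun x => ⟨S.q x, hι x⟩, tw S, adm_w S hM hp hA, ?_, ?_, ?_,
    Mw_tw S hM, pw_tw S hp, ?_, ?_⟩
  · intro x y hxy
    exact Subtype.ext (S.inj_W (hFW x.2) (hFW y.2) (congrArg Subtype.val hxy))
  · intro x y
    exact lab_of hM ⟨i0, hFW x.2, hFW y.2, rfl, rfl⟩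
  · intro x
    exact pw_q S hp (hι x)
  · intro x y hxy
    apply Subtype.ext
    show S.sb (S.q x) = S.q y
    rw [S.sb_q, hxy]
  · intro A hcl
    have hA1 : (Subtype.val '' A : Set S.Vm).Finite :=
      hfin.subset (by rintro _ ⟨x, _, rfl⟩; exact x.2)
    have hcl' : ∀ c ∈ (Subtype.val '' A : Set S.Vm), ∀ d ∈ (Subtype.val '' A : Set S.Vm), c ≠ d →
        ∃ v w, Lft S c d v w := by
      rintro _ ⟨c, hc, rfl⟩ _ ⟨d, hd, rfl⟩ hcd
      exact lab_lift (M := M) hcd (hcl c hc d hd)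
    obtain ⟨l, i1, hl, hlW⟩ := clique_lft S hA1 (by rintro _ ⟨x, _, rfl⟩; exact x.2) hcl'
    have hl' : ∀ x ∈ A, S.q (l x.1) = x.1 := fun x hx => hl _ ⟨x, hx, rfl⟩
    have hW' : ∀ x ∈ A, l x.1 ∈ S.W i1 := fun x hx => hlW _ ⟨x, hx, rfl⟩
    refine ⟨fun x => l x.1, ?_, ?_⟩
    · intro x hx y hy
      exact (lab_of hM ⟨i1, hW' x hx, hW' y hy, hl' x hx, hl' y hy⟩).symm
    · intro x hx
      obtain ⟨c, hc⟩ := x
      have h1 := hl' _ hx
      simp only at h1 ⊢
      obtain ⟨j, hj⟩ := S.q_eq.1 (show S.q c.out = S.q (l c) by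
        rw [h1]
        exact Quotient.out_eq _)
      show p (l c) = p c.out
      rw [← hj, hp]

section main

variable {G B : Type} [Group G] {N : Subgroup G} {M : CoxeterMatrix B} {p : B → ℕ}
  (e : Sh M p ≃* N)

/-- the subgroup generated by some generators -/
def PJ (J : Set B) : Subgroup G := Subgroup.closure ((fun b => (e (Sh.gen M p b) : G)) '' J)

theorem PJ_mono {J J' : Set B} (h : J ⊆ J') : PJ e J ≤ PJ e J' :=
  Subgroup.closure_mono (Set.image_mono h)

theorem ex_supp (y : Sh M p) : ∃ J : Set B, J.Finite ∧ (e y : G) ∈ PJ e J := by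
  induction y using Sh.induction with
  | one => exact ⟨∅, Set.finite_empty, by rw [map_one]; exact one_mem _⟩
  | gen i => exact ⟨{i}, Set.finite_singleton i, Subgroup.subset_closure ⟨i, rfl, rfl⟩⟩
  | mul x y hx hy =>
    obtain ⟨J, hJ, h1⟩ := hx
    obtain ⟨J', hJ', h2⟩ := hy
    refine ⟨J ∪ J', hJ.union hJ', ?_⟩
    rw [map_mul]
    exact mul_mem (PJ_mono e Set.subset_union_left h1) (PJ_mono e Set.subset_union_right h2)
  | inv x hx =>
    obtain ⟨J, hJ, h1⟩ := hx
    refine ⟨J, hJ, ?_⟩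
    rw [map_inv]
    exact inv_mem h1

theorem ex_supp_fin {E : Set G} (hE : E.Finite) (hEN : E ⊆ N) :
    ∃ J : Set B, J.Finite ∧ ∀ x ∈ E, x ∈ PJ e J := by
  induction E, hE using Set.Finite.induction_on with
  | empty => exact ⟨∅, Set.finite_empty, fun x hx => absurd hx (Set.notMem_empty x)⟩
  | @insert a s _ _ ih =>
    obtain ⟨S, hS, h1⟩ := ih (fun x hx => hEN (Set.mem_insert_of_mem _ hx))
    obtain ⟨y, hy⟩ := e.surjective ⟨a, hEN (Set.mem_insert _ _)⟩
    obtain ⟨S', hS', h2⟩ := ex_supp e y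
    rw [hy] at h2
    refine ⟨S ∪ S', hS.union hS', fun x hx => ?_⟩
    rcases hx with rfl | hx
    · exact PJ_mono e (Set.subset_union_right : S' ⊆ S ∪ S') h2
    · exact PJ_mono e (Set.subset_union_left : S ⊆ S ∪ S') (h1 x hx)

end main

end Pool.Agent.U38.AK
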